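import Pool.Agent.Y572.GP.Defs

set_option autoImplicit false

/-!
# Gibbs point processes: the part on Lipschitz bumps
-/

namespace Pool.Agent.Y572.GP

open MeasureTheory

/-- BUMP2: Lipschitz bumps that vanish at finitely many given rational points -/
def S_BUMP2 : Prop := ∀ d : ℕ, 1 ≤ d → ∃ c : ℝ, 0 < c ∧ ∀ (F : Finset (Fin d → ℚ)) (δ r : ℚ),
  0 < δ → 0 < r → (r : ℝ) ^ d * ((F.card : ℝ) + 1) ≤ c →
  ∃ h : E d → ℝ, Adm (δ : ℝ) h ∧ (∀ q ∈ F, h (pt q) = 0) ∧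
    (∀ x y, |h x - h y| ≤ (δ : ℝ) / r * ‖x - y‖) ∧ c * δ ≤ ∫ x, h x

end Pool.Agent.Y572.GP
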