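import Pool.Agent.Y572.GP.Force
import Pool.Agent.Y572.GP.Defs2

set_option autoImplicit false

/-!
# Gibbs point processes: the forcing argument with a modulus of continuity
-/

namespace Pool.Agent.Y572.GP

open MeasureTheory

variable {d : ℕ}

/-- locality with a bound on the number of questions -/
lemma run_local' (A : List ℚ → Act d) (O : (Fin d → ℚ) → ℕ → ℚ) (T : ℕ) :
    ∀ as : List ℚ, ∃ G : Finset (Fin d → ℚ), G.card ≤ T ∧
      ∀ O' : (Fin d → ℚ) → ℕ → ℚ, (∀ q ∈ G, ∀ m, O' q m = O q m) →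
        run A O' T as = run A O T as := by
  classical
  induction T with
  | zero =>
    intro as
    refine ⟨∅, by simp, fun O' _ => ?_⟩
    cases hA : A as with
    | out w => rw [run_out A O 0 as w hA, run_out A O' 0 as w hA]
    | ask q m => rw [run_ask0 A O as q m hA, run_ask0 A O' as q m hA]
  | succ T ih =>
    intro as
    cases hA : A as with
    | out w =>
      refine ⟨∅, by simp, fun O' _ => ?_⟩
      rw [run_out A O _ as w hA, run_out A O' _ as w hA]
    | ask q m =>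
      obtain ⟨G, hGc, hG⟩ := ih (as ++ [O q m])
      refine ⟨insert q G, (Finset.card_insert_le _ _).trans (by omega), fun O' hO' => ?_⟩
      rw [run_ask A O T as q m hA, run_ask A O' T as q m hA,
        hO' q (Finset.mem_insert_self _ _) m]
      exact hG O' fun p hp m' => hO' p (Finset.mem_insert_of_mem hp) m'

lemma run_mono (A : List ℚ → Act d) (O : (Fin d → ℚ) → ℕ → ℚ) : ∀ (T T' : ℕ) (as : List ℚ)
    (z : ℚ), T ≤ T' → run A O T as = some z → run A O T' as = some z := by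
  intro T
  induction T with
  | zero =>
    intro T' as z _ h
    cases hA : A as with
    | out w => rw [run_out A O _ as w hA] at h ⊢; exact h
    | ask q m => rw [run_ask0 A O as q m hA] at h; exact absurd h (by simp)
  | succ T ih =>
    intro T' as z hTT h
    cases hA : A as with
    | out w => rw [run_out A O _ as w hA] at h ⊢; exact h
    | ask q m =>
      cases T' with
      | zero => omega
      | succ T' =>
        rw [run_ask A O _ as q m hA] at h ⊢
        exact ih T' _ _ (by omega) h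

/-- moduli of continuity -/
structure Mod (w : ℝ → ℝ) : Prop where
  pos : ∀ t, 0 < t → 0 < w t
  mono : ∀ s t, 0 < s → s ≤ t → w s ≤ w t
  anti : ∀ s t, 0 < s → s ≤ t → w t * s ≤ w s * t

/-- bounds on the number of questions which are too small for the modulus -/
def Slow (d : ℕ) (w : ℝ → ℝ) (t : ℕ → ℕ) : Prop :=
  ∀ B : ℝ, ∃ j : ℕ, 2 ≤ j ∧ B ≤ j * w (((t j : ℝ) + 1) ^ (-(1 / (d : ℝ))))

/-- valid conditions -/
def Ok2 (w : ℝ → ℝ) (c : ℝ) (s : St d) : Prop :=
  Ok c s ∧ ∀ x y, x ≠ y → |s.f x - s.f y| ≤ (c - s.η) * w ‖x - y‖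

/-- the algorithm fails for some `ε = 1 / j` with at most `t j` questions -/
def FailsIn (lam : ℝ) (g : E d → ℝ) (A : Alg d) (n : ℕ) (t : ℕ → ℕ) : Prop :=
  ∃ j : ℕ, 2 ≤ j ∧ ∀ z : ℚ, run (A n (1 / (j : ℚ))) (orc g) (t j) [] = some z →
    ¬ ((1 - 1 / (j : ℝ)) * Zf g (box d n) lam ≤ z ∧
      (z : ℝ) ≤ (1 + 1 / (j : ℝ)) * Zf g (box d n) lam)

/-- one step -/
theorem step2 (hLIP : S_LIP) (hLOW : S_LOW) (hBUMP : S_BUMP2) (hd : 1 ≤ d) {w : ℝ → ℝ}
    (hw : Mod w) {c : ℝ} (hc : c ≤ 1 / 2) (s : St d) (hs : Ok2 w c s) (A : Alg d) (n : ℕ)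
    (hn : 1 ≤ n) (lam : ℝ) (hlam : 0 < lam) (t : ℕ → ℕ) (ht : Slow d w t) (q0 : Fin d → ℚ) :
    ∃ s' : St d, Ok2 w c s' ∧ Sub s' s ∧ q0 ∈ s'.F ∧ ∀ g ∈ Ext c s', FailsIn lam g A n t := by
  classical
  obtain ⟨K, hK, hKL, hKB⟩ := hLIP d n lam hlam.le
  obtain ⟨c0, hc0, hb⟩ := hBUMP d hd
  obtain ⟨⟨hsA, hη⟩, hsw⟩ := hs
  have hdp : (0 : ℝ) < d := by exact_mod_cast hd
  set κ : ℝ := min 1 (c0 / ((s.F.card : ℝ) + 2)) with hκ
  have hF2 : (0 : ℝ) < (s.F.card : ℝ) + 2 := by positivity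
  have hκ0 : 0 < κ := by positivity
  have hκ1 : κ ≤ 1 := min_le_left _ _
  have hκc : κ * ((s.F.card : ℝ) + 2) ≤ c0 := by
    calc κ * ((s.F.card : ℝ) + 2) ≤ c0 / ((s.F.card : ℝ) + 2) * ((s.F.card : ℝ) + 2) :=
          mul_le_mul_of_nonneg_right (min_le_right _ _) hF2.le
      _ = c0 := by field_simp
  have hw1 : 0 < w 1 := hw.pos 1 one_pos
  set W1 : ℝ := 1 + w 1 with hW1
  have hW1p : 1 < W1 := by linarith
  have hW1p' : 0 < W1 := by linarith
  set α : ℝ := lam ^ 2 / 2 * (c0 * (s.η / 8 / W1 * (κ / 2))) with hα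
  have hα0 : 0 < α := by positivity
  obtain ⟨j, hj2, hjB⟩ := ht (8 * K / α)
  set ρ : ℝ := ((t j : ℝ) + 1) ^ (-(1 / (d : ℝ))) with hρ
  have htj : (0 : ℝ) < (t j : ℝ) + 1 := by positivity
  have hρ0 : 0 < ρ := Real.rpow_pos_of_pos htj _
  have hρ1 : ρ ≤ 1 := by
    apply Real.rpow_le_one_of_one_le_of_nonpos
    · have : (0 : ℝ) ≤ t j := by positivity
      linarith
    · have : 0 < 1 / (d : ℝ) := by positivity
      linarith
  have hρd : ρ ^ d * ((t j : ℝ) + 1) = 1 := by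
    rw [hρ, ← Real.rpow_natCast, ← Real.rpow_mul htj.le]
    have : -(1 / (d : ℝ)) * (d : ℝ) = -1 := by field_simp
    rw [this, Real.rpow_neg_one]
    field_simp
  have hκρ : 0 < κ * ρ := by positivity
  obtain ⟨r, hr1, hr2⟩ := exists_rat_btwn (show κ * ρ / 2 < κ * ρ by linarith)
  have hr0 : (0 : ℝ) < r := by linarith
  have hr0' : (0 : ℚ) < r := by exact_mod_cast hr0
  have hrρ : (r : ℝ) ≤ ρ := by nlinarith
  have hr1' : (r : ℝ) ≤ 1 := hrρ.trans hρ1
  have hwr0 : 0 < w r := hw.pos _ hr0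
  have hwρ : κ / 2 * w ρ ≤ w r := by
    have h1 := hw.anti r ρ hr0 hrρ
    have h2 : 0 < w ρ := hw.pos _ hρ0
    have h3 : (κ / 2 * w ρ) * ρ ≤ w r * ρ := by nlinarith
    exact le_of_mul_le_mul_right h3 hρ0
  have hwr1 : w r ≤ w 1 := hw.mono _ _ hr0 hr1'
  have hwrW : w r / W1 ≤ 1 := by rw [div_le_one hW1p']; linarith
  have hwrW' : w r / W1 ≤ w r := div_le_self hwr0.le hW1p.le
  have ha0 : 0 < s.η / 4 * (w r / W1) := by positivity
  obtain ⟨δ, hδ1, hδ2⟩ := exists_rat_btwn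
    (show s.η / 8 * (w r / W1) < s.η / 4 * (w r / W1) by
      have : 0 < w r / W1 := by positivity
      nlinarith)
  have hδ0 : (0 : ℝ) < δ := lt_trans (by positivity) hδ1
  have hδ0' : (0 : ℚ) < δ := by exact_mod_cast hδ0
  have hδη : (δ : ℝ) < s.η / 4 :=
    lt_of_lt_of_le hδ2 (mul_le_of_le_one_right (by linarith) hwrW)
  have hδw : (δ : ℝ) ≤ s.η / 4 * w r :=
    hδ2.le.trans (mul_le_mul_of_nonneg_left hwrW' (by linarith))
  set c1 : ℝ := lam ^ 2 / 2 * (c0 * δ) with hc1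
  have hc1p : 0 < c1 := by positivity
  have hjp : (0 : ℝ) < j := by
    have : 0 < j := by omega
    exact_mod_cast this
  have hjc1 : 8 * K ≤ j * c1 := by
    have h1 : 8 * K ≤ α * (j * w ρ) := by
      have := mul_le_mul_of_nonneg_left hjB hα0.le
      have h2 : α * (8 * K / α) = 8 * K := by field_simp
      linarith
    have h3 : α * w ρ ≤ c1 := by
      have h4 : s.η / 8 / W1 * (κ / 2) * w ρ ≤ δ := by
        calc s.η / 8 / W1 * (κ / 2) * w ρ = s.η / 8 / W1 * (κ / 2 * w ρ) := by ring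
          _ ≤ s.η / 8 / W1 * w r := mul_le_mul_of_nonneg_left hwρ (by positivity)
          _ = s.η / 8 * (w r / W1) := by ring
          _ ≤ δ := hδ1.le
      calc α * w ρ = lam ^ 2 / 2 * (c0 * (s.η / 8 / W1 * (κ / 2) * w ρ)) := by rw [hα]; ring
        _ ≤ lam ^ 2 / 2 * (c0 * δ) :=
          mul_le_mul_of_nonneg_left (mul_le_mul_of_nonneg_left h4 hc0.le) (by positivity)
    calc 8 * K ≤ α * (j * w ρ) := h1
      _ = j * (α * w ρ) := by ring
      _ ≤ j * c1 := mul_le_mul_of_nonneg_left h3 hjp.le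
  have hεK : (1 / (j : ℝ)) * K ≤ c1 / 8 := by
    rw [one_div, inv_mul_le_iff₀ hjp]; linarith
  have hj1 : 1 / (j : ℝ) < 1 := by
    rw [div_lt_one hjp]
    have : 1 < j := by omega
    exact_mod_cast this
  have hle : ∀ x, s.f x ≤ c - s.η := hsA.le
  obtain ⟨G, hGc, hG⟩ := run_local' (A n (1 / (j : ℚ))) (orc s.f) (t j) []
  set F1 : Finset (Fin d → ℚ) := insert q0 (s.F ∪ G) with hF1
  have hF1c : ((F1.card : ℝ) + 1) ≤ ((s.F.card : ℝ) + 2) * ((t j : ℝ) + 1) := by
    have h1 : F1.card ≤ s.F.card + t j + 1 := by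
      calc F1.card ≤ (s.F ∪ G).card + 1 := Finset.card_insert_le _ _
        _ ≤ (s.F.card + G.card) + 1 := by
          have := Finset.card_union_le s.F G
          omega
        _ ≤ s.F.card + t j + 1 := by omega
    have h2 : (F1.card : ℝ) ≤ (s.F.card : ℝ) + t j + 1 := by exact_mod_cast h1
    have h3 : (0 : ℝ) ≤ s.F.card := by positivity
    have h4 : (0 : ℝ) ≤ t j := by positivity
    nlinarith [mul_nonneg h3 h4]
  have hrF : (r : ℝ) ^ d * ((F1.card : ℝ) + 1) ≤ c0 := by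
    have h1 : (r : ℝ) ^ d ≤ κ * ρ ^ d := by
      calc (r : ℝ) ^ d ≤ (κ * ρ) ^ d := pow_le_pow_left₀ hr0.le hr2.le d
        _ = κ ^ d * ρ ^ d := mul_pow _ _ _
        _ ≤ κ * ρ ^ d := by
          refine mul_le_mul_of_nonneg_right ?_ (by positivity)
          calc κ ^ d ≤ κ ^ 1 := pow_le_pow_of_le_one hκ0.le hκ1 hd
            _ = κ := pow_one κ
    calc (r : ℝ) ^ d * ((F1.card : ℝ) + 1)
        ≤ κ * ρ ^ d * (((s.F.card : ℝ) + 2) * ((t j : ℝ) + 1)) :=
          mul_le_mul h1 hF1c (by positivity) (by positivity)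
      _ = κ * ((s.F.card : ℝ) + 2) * (ρ ^ d * ((t j : ℝ) + 1)) := by ring
      _ = κ * ((s.F.card : ℝ) + 2) := by rw [hρd, mul_one]
      _ ≤ c0 := hκc
  obtain ⟨h, hhA, hhF, hhL, hhI⟩ := hb F1 δ r hδ0' hr0' hrF
  have hhw : ∀ x y, x ≠ y → |h x - h y| ≤ s.η / 4 * w ‖x - y‖ := by
    intro x y hxy
    have hxy0 : 0 < ‖x - y‖ := norm_pos_iff.2 (sub_ne_zero.2 hxy)
    rcases le_total (r : ℝ) ‖x - y‖ with hr | hr
    · have h1 : |h x - h y| ≤ δ := by
        rw [abs_le]
        constructor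
        · linarith [hhA.nonneg x, hhA.le y]
        · linarith [hhA.nonneg y, hhA.le x]
      have h2 := hw.mono _ _ hr0 hr
      exact h1.trans (hδw.trans (mul_le_mul_of_nonneg_left h2 (by linarith)))
    · have h2 := hw.anti _ _ hxy0 hr
      calc |h x - h y| ≤ (δ : ℝ) / r * ‖x - y‖ := hhL x y
        _ ≤ (s.η / 4 * w r) / r * ‖x - y‖ := by gcongr
        _ = s.η / 4 * (w r * ‖x - y‖) / r := by ring
        _ ≤ s.η / 4 * (w ‖x - y‖ * r) / r := by gcongr
        _ = s.η / 4 * w ‖x - y‖ := by field_simp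
  -- modulus of the next function
  have hmodf : ∀ η' : ℝ, η' ≤ s.η / 4 → ∀ x y, x ≠ y →
      |s.f x - s.f y| ≤ (c - η') * w ‖x - y‖ := by
    intro η' hη' x y hxy
    have hxy0 : 0 < ‖x - y‖ := norm_pos_iff.2 (sub_ne_zero.2 hxy)
    have hwp := hw.pos _ hxy0
    exact (hsw x y hxy).trans (mul_le_mul_of_nonneg_right (by linarith) hwp.le)
  have hmodf2 : ∀ η' : ℝ, η' ≤ s.η / 4 → ∀ x y, x ≠ y →
      |(s.f x + h x) - (s.f y + h y)| ≤ (c - η') * w ‖x - y‖ := by
    intro η' hη' x y hxy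
    have hxy0 : 0 < ‖x - y‖ := norm_pos_iff.2 (sub_ne_zero.2 hxy)
    have hwp := hw.pos _ hxy0
    have h1 := hsw x y hxy
    have h2 := hhw x y hxy
    have h3 : |(s.f x + h x) - (s.f y + h y)| ≤ |s.f x - s.f y| + |h x - h y| := by
      have : (s.f x + h x) - (s.f y + h y) = (s.f x - s.f y) + (h x - h y) := by ring
      rw [this]; exact abs_add_le _ _
    have h4 : (c - s.η) * w ‖x - y‖ + s.η / 4 * w ‖x - y‖ ≤ (c - η') * w ‖x - y‖ := by
      have : (c - s.η) + s.η / 4 ≤ c - η' := by linarith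
      calc (c - s.η) * w ‖x - y‖ + s.η / 4 * w ‖x - y‖ = ((c - s.η) + s.η / 4) * w ‖x - y‖ := by
            ring
        _ ≤ (c - η') * w ‖x - y‖ := mul_le_mul_of_nonneg_right this hwp.le
    linarith
  cases hcase : run (A n (1 / (j : ℚ))) (orc s.f) (t j) [] with
  | none =>
    refine ⟨⟨s.f, F1, s.η / 4⟩, ⟨⟨hsA.mono (by simp only; linarith), by simp only; linarith⟩,
      hmodf _ le_rfl⟩, ⟨?_, fun _ _ => rfl, fun _ => le_refl _, fun x => ?_, ?_⟩,
      Finset.mem_insert_self _ _, ?_⟩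
    · intro q hq
      exact Finset.mem_insert_of_mem (Finset.mem_union_left _ hq)
    · simp only; linarith
    · simp only; linarith
    · rintro u ⟨huA, huF, hub⟩
      simp only at huF hub
      refine ⟨j, hj2, fun z hrun _ => ?_⟩
      have h1 : run (A n (1 / (j : ℚ))) (orc u) (t j) [] =
          run (A n (1 / (j : ℚ))) (orc s.f) (t j) [] := by
        apply hG
        intro q hq m
        exact orc_congr (huF q (Finset.mem_insert_of_mem (Finset.mem_union_right _ hq))) m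
      rw [hrun, hcase] at h1
      exact absurd h1 (by simp)
  | some z =>
    set η' : ℝ := min (s.η / 4) (c1 / (8 * K)) with hη'
    have hη'0 : 0 < η' := by positivity
    have hη'1 : η' ≤ s.η / 4 := min_le_left _ _
    have hη'K : K * η' ≤ c1 / 8 := by
      have h1 : η' ≤ c1 / (8 * K) := min_le_right _ _
      calc K * η' ≤ K * (c1 / (8 * K)) := mul_le_mul_of_nonneg_left h1 hK.le
        _ = c1 / 8 := by field_simp
    set g2 : E d → ℝ := fun x => s.f x + h x with hg2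
    have hg2A : Adm (c - s.η + δ) g2 := hsA.add hhA
    have hdiff : c1 ≤ Zf s.f (box d n) lam - Zf g2 (box d n) lam := by
      have h1 := hLOW d n lam hn hlam.le s.f g2 (hsA.mono (by linarith))
        (hg2A.mono (by linarith)) (fun x => by simp only [hg2]; linarith [hhA.nonneg x])
      have h2 : ∫ x, (g2 x - s.f x) = ∫ x, h x := by
        congr 1; ext x; simp only [hg2]; ring
      rw [h2] at h1
      have h3 : lam ^ 2 / 2 * (c0 * δ) ≤ lam ^ 2 / 2 * ∫ x, h x :=
        mul_le_mul_of_nonneg_left hhI (by positivity)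
      exact h3.trans h1
    -- the common part
    have key : ∀ f' : E d → ℝ, Adm (c - η') f' → (∀ q ∈ F1, f' (pt q) = s.f (pt q)) →
        (∀ x, s.f x ≤ f' x ∧ f' x ≤ s.f x + δ) →
        (∀ x y, x ≠ y → |f' x - f' y| ≤ (c - η') * w ‖x - y‖) →
        c1 / 2 ≤ |(z : ℝ) - Zf f' (box d n) lam| →
        ∃ s' : St d, Ok2 w c s' ∧ Sub s' s ∧ q0 ∈ s'.F ∧
          ∀ g ∈ Ext c s', FailsIn lam g A n t := by
      intro f' hf'A hf'F hf'b hf'w hz
      refine ⟨⟨f', F1, η'⟩, ⟨⟨hf'A, hη'0⟩, hf'w⟩, ⟨?_, ?_, ?_, ?_, ?_⟩,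
        Finset.mem_insert_self _ _, ?_⟩
      · intro q hq
        exact Finset.mem_insert_of_mem (Finset.mem_union_left _ hq)
      · intro q hq
        exact hf'F q (Finset.mem_insert_of_mem (Finset.mem_union_left _ hq))
      · intro x
        exact (hf'b x).1
      · intro x
        have h1 := (hf'b x).2
        simp only
        linarith
      · simp only
        linarith
      · rintro u ⟨huA, huF, hub⟩
        simp only at huF hub
        refine ⟨j, hj2, fun z' hrun' hap => ?_⟩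
        have hrunu : run (A n (1 / (j : ℚ))) (orc u) (t j) [] = some z := by
          rw [← hcase]
          apply hG
          intro q hq m
          have hq1 : q ∈ F1 := Finset.mem_insert_of_mem (Finset.mem_union_right _ hq)
          exact orc_congr ((huF q hq1).trans (hf'F q hq1)) m
        have hzz : z' = z := Option.some.inj (hrun'.symm.trans hrunu)
        subst hzz
        have hL := hKL u f' (huA.mono hc) (hf'A.mono (by linarith)) η' (fun x => by
          rw [abs_le]; constructor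
          · linarith [(hub x).1]
          · linarith [(hub x).2])
        have hB := hKB u (huA.mono hc)
        have h1 : |(z' : ℝ) - Zf u (box d n) lam| ≤ c1 / 8 := by
          have h2 : (1 / (j : ℝ)) * Zf u (box d n) lam ≤ c1 / 8 :=
            (mul_le_mul_of_nonneg_left hB.2 (by positivity)).trans hεK
          rw [abs_le]
          constructor
          · nlinarith [hap.1]
          · nlinarith [hap.2]
        have h3 : |(z' : ℝ) - Zf f' (box d n) lam| ≤
            |(z' : ℝ) - Zf u (box d n) lam| + |Zf u (box d n) lam - Zf f' (box d n) lam| :=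
          abs_sub_le _ _ _
        linarith
    by_cases hz : c1 / 2 ≤ |(z : ℝ) - Zf s.f (box d n) lam|
    · exact key s.f (hsA.mono (by linarith)) (fun _ _ => rfl)
        (fun x => ⟨le_refl _, by linarith⟩) (hmodf _ hη'1) hz
    · refine key g2 (hg2A.mono (by linarith)) (fun q hq => ?_) (fun x => ?_)
        (hmodf2 _ hη'1) ?_
      · simp only [hg2]; rw [hhF q hq, add_zero]
      · simp only [hg2]
        exact ⟨by linarith [hhA.nonneg x], by linarith [hhA.le x]⟩
      · push Not at hz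
        have h1 : |Zf s.f (box d n) lam - Zf g2 (box d n) lam| ≤
            |Zf s.f (box d n) lam - (z : ℝ)| + |(z : ℝ) - Zf g2 (box d n) lam| :=
          abs_sub_le _ _ _
        have h2 : c1 ≤ |Zf s.f (box d n) lam - Zf g2 (box d n) lam| :=
          hdiff.trans (le_abs_self _)
        rw [abs_sub_comm] at hz
        linarith

/-- the forcing theorem -/
theorem force2 (hLIP : S_LIP) (hLOW : S_LOW) (hBUMP : S_BUMP2) (hd : 1 ≤ d) {w : ℝ → ℝ}
    (hw : Mod w) {c : ℝ} (hc0 : 0 < c) (hc : c ≤ 1 / 2) (A : ℕ → Alg d) (n : ℕ → ℕ)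
    (hn : ∀ i, 1 ≤ n i) (lam : ℕ → ℝ) (hlam : ∀ i, 0 < lam i) (t : ℕ → ℕ → ℕ)
    (ht : ∀ i, Slow d w (t i)) :
    ∃ g : E d → ℝ, Adm c g ∧ (∀ x y, x ≠ y → |g x - g y| ≤ c * w ‖x - y‖) ∧
      ∀ i, FailsIn (lam i) g (A i) (n i) (t i) := by
  obtain ⟨e, he⟩ := exists_surjective_nat (Fin d → ℚ)
  have hstep : ∀ (i : ℕ) (s : {s : St d // Ok2 w c s}), ∃ s' : {s : St d // Ok2 w c s},
      Sub s'.1 s.1 ∧ e i ∈ s'.1.F ∧
        ∀ g ∈ Ext c s'.1, FailsIn (lam i) g (A i) (n i) (t i) := by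
    intro i s
    obtain ⟨s', h1, h2, h3, h4⟩ := step2 hLIP hLOW hBUMP hd hw hc s.1 s.2 (A i) (n i) (hn i)
      (lam i) (hlam i) (t i) (ht i) (e i)
    exact ⟨⟨s', h1⟩, h2, h3, h4⟩
  choose nx hnx using hstep
  have h0 : Ok2 w c (⟨fun _ => 0, ∅, c⟩ : St d) := by
    refine ⟨⟨⟨continuous_const, fun _ => rfl, fun _ => le_refl _, fun _ => by simp,
      fun _ _ => rfl, fun _ => ⟨0, by simp⟩⟩, hc0⟩, fun x y _ => by simp⟩
  let S : ℕ → {s : St d // Ok2 w c s} := fun i => Nat.rec ⟨_, h0⟩ (fun i s => nx i s) i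
  have hS : ∀ i, S (i + 1) = nx i (S i) := fun i => rfl
  obtain ⟨g, hg⟩ := lim (c := c) (fun i => (S i).1) (fun i => (S i).2.1)
    (fun i => by rw [hS]; exact (hnx i (S i)).1) (fun q => by
      obtain ⟨i, rfl⟩ := he q
      exact ⟨i + 1, by rw [hS]; exact (hnx i (S i)).2.1⟩)
  have hη : ∀ i, (S i).1.η ≤ c * (1 / 2) ^ i := by
    intro i
    induction i with
    | zero => simp [S]
    | succ i ih =>
      have h1 := (hnx i (S i)).1.2.2.2.2
      rw [← hS] at h1
      rw [pow_succ]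
      linarith
  refine ⟨g, (hg 0).1, fun x y hxy => ?_, fun i => ?_⟩
  · have hxy0 : 0 < ‖x - y‖ := norm_pos_iff.2 (sub_ne_zero.2 hxy)
    have hwp := hw.pos _ hxy0
    refine le_of_forall_pos_le_add fun e he' => ?_
    have ht : Filter.Tendsto (fun i : ℕ => 2 * (c * (1 / 2 : ℝ) ^ i)) Filter.atTop (nhds 0) := by
      have := ((tendsto_pow_atTop_nhds_zero_of_lt_one (r := (1 / 2 : ℝ)) (by norm_num)
        (by norm_num)).const_mul c).const_mul 2
      simpa using this
    obtain ⟨i, hi⟩ := ((tendsto_order.1 ht).2 e he').exists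
    have h1 := (hg i).2.2 x
    have h2 := (hg i).2.2 y
    have h3 := (S i).2.2 x y hxy
    have h4 := hη i
    have h5 := (S i).2.1.2
    have h6 : (c - (S i).1.η) * w ‖x - y‖ ≤ c * w ‖x - y‖ :=
      mul_le_mul_of_nonneg_right (by linarith) hwp.le
    have h7 := abs_le.1 (h3.trans h6)
    rw [abs_le]
    constructor
    · linarith [h7.1, h1.1, h1.2, h2.1, h2.2]
    · linarith [h7.2, h1.1, h1.2, h2.1, h2.2]
  · have h1 := hg (i + 1)
    rw [hS] at h1
    exact (hnx i (S i)).2.2 g h1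

end Pool.Agent.Y572.GP
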