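import Pool.Agent.Y572.GP.Asm
import Pool.Agent.Y572.GP.Force2

set_option autoImplicit false

/-!
# Gibbs point processes: assembly, potentials with a modulus of continuity
-/

namespace Pool.Agent.Y572.GP

open MeasureTheory Filter Topology

variable {d : ℕ}

/-- `φ` is a continuous repulsive potential of range at most `d`, `L < e / Δ_φ`, `L < e / C_φ`, and
`O` is an exact oracle for `exp (-φ)` at the rational points -/
def Weak (L : ℝ) (φ : E d → ℝ) (O : (Fin d → ℚ) → ℕ → ℚ) : Prop :=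
  Continuous φ ∧ (∀ x, φ (-x) = φ x) ∧ (∀ x, 0 ≤ φ x) ∧ (∀ x, (d : ℝ) < ‖x‖ → φ x = 0) ∧
    L * conn φ < Real.exp 1 ∧ L * temp φ < Real.exp 1 ∧
    ∀ q m, (O q m : ℝ) = Real.exp (-φ (pt q))

/-- the algorithm `A` with the oracle `O` computes `Z` from the input `n` up to any relative
error `ε` with at most `b ε` questions -/
def ApproximatesIn (A : Alg d) (O : (Fin d → ℚ) → ℕ → ℚ) (n : ℕ) (Zv : ℝ) (b : ℚ → ℝ) : Prop :=
  ∀ ε : ℚ, 0 < ε → ε < 1 → ∃ (T : ℕ) (z : ℚ), (T : ℝ) ≤ b ε ∧ run (A n ε) O T [] = some z ∧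
    (1 - (ε : ℝ)) * Zv ≤ z ∧ (z : ℝ) ≤ (1 + (ε : ℝ)) * Zv

lemma log_sub_le {a b : ℝ} (ha : 1 / 2 ≤ a) (hb : 1 / 2 ≤ b) :
    Real.log a - Real.log b ≤ 2 * |a - b| := by
  have ha0 : 0 < a := by linarith
  have hb0 : 0 < b := by linarith
  rw [← Real.log_div ha0.ne' hb0.ne']
  have h1 : Real.log (a / b) ≤ a / b - 1 := Real.log_le_sub_one_of_pos (by positivity)
  have h2 : a / b - 1 = (a - b) / b := by field_simp
  have h3 : (a - b) / b ≤ |a - b| / b := by gcongr; exact le_abs_self _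
  have h4 : |a - b| / b ≤ 2 * |a - b| := by
    rw [div_le_iff₀ hb0]
    nlinarith [abs_nonneg (a - b)]
  linarith

/-- the theorem with a modulus, from its parts -/
theorem main_of2 (hLIP : S_LIP) (hLOW : S_LOW) (hBUMP : S_BUMP2) (hDEL : S_DEL) (hd : 1 ≤ d)
    (L : ℝ) (𝒜 : Set (Alg d)) (h𝒜 : 𝒜.Countable) {w : ℝ → ℝ} (hw : Mod w) (t : ℕ → ℕ → ℕ)
    (ht : ∀ i, Slow d w (t i)) :
    ∃ (φ : E d → ℝ) (O : (Fin d → ℚ) → ℕ → ℚ), Weak L φ O ∧
      (∀ x y, x ≠ y → |φ x - φ y| ≤ w ‖x - y‖) ∧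
      ∀ A ∈ 𝒜, ∀ n : ℕ, 1 ≤ n → ∀ lam : ℚ, 0 < lam → ∀ i, ∃ j : ℕ, 2 ≤ j ∧
        ∀ z : ℚ, run (A n (1 / (j : ℚ))) O (t i j) [] = some z →
          ¬ ((1 - 1 / (j : ℝ)) * Z φ (box d n) lam ≤ z ∧
            (z : ℝ) ≤ (1 + 1 / (j : ℝ)) * Z φ (box d n) lam) := by
  classical
  set c : ℝ := min (1 / 2) (1 / (|L| + 1)) with hcdef
  have hLp : 0 < |L| + 1 := by positivity
  have hc0 : 0 < c := by positivity
  have hc : c ≤ 1 / 2 := min_le_left _ _
  have hcL : ∀ t : ℝ, t ≤ c → 0 ≤ t → L * t < Real.exp 1 := by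
    intro t ht ht0
    have h1 : c ≤ 1 / (|L| + 1) := min_le_right _ _
    have h2 : L * t ≤ |L| * (1 / (|L| + 1)) := by
      calc L * t ≤ |L| * t := mul_le_mul_of_nonneg_right (le_abs_self L) ht0
        _ ≤ |L| * (1 / (|L| + 1)) := mul_le_mul_of_nonneg_left (ht.trans h1) (abs_nonneg L)
    have h3 : |L| * (1 / (|L| + 1)) ≤ 1 := by
      rw [mul_one_div, div_le_one hLp]; linarith
    have h4 : (1 : ℝ) < Real.exp 1 := by
      have := Real.add_one_lt_exp (x := 1) (by norm_num)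
      linarith
    linarith
  obtain ⟨B, hB⟩ : ∃ B : ℕ → Alg d, ∀ A ∈ 𝒜, ∃ i, B i = A := by
    rcases 𝒜.eq_empty_or_nonempty with h | h
    · exact ⟨fun _ => fun _ _ _ => Act.out 0, fun A hA => by rw [h] at hA; exact absurd hA (by simp)⟩
    · obtain ⟨B, hB⟩ := h𝒜.exists_eq_range h
      exact ⟨B, fun A hA => by rw [hB] at hA; exact hA⟩
  obtain ⟨e, he⟩ := exists_surjective_nat (ℕ × ℕ × {r : ℚ // 0 < r} × ℕ)
  obtain ⟨g, hgA, hgw, hgF⟩ := force2 (d := d) hLIP hLOW hBUMP hd hw hc0 hc (fun i => B (e i).1)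
    (fun i => (e i).2.1 + 1) (fun i => by omega) (fun i => (((e i).2.2.1.1 : ℚ) : ℝ))
    (fun i => by have := (e i).2.2.1.2; exact_mod_cast this) (fun i => t (e i).2.2.2)
    (fun i => ht _)
  set φ : E d → ℝ := fun y => -Real.log (1 - g y) with hφ
  have hhalf : ∀ x, 1 / 2 ≤ 1 - g x := fun x => by linarith [hgA.le x]
  have hpos : ∀ x, 0 < 1 - g x := fun x => by linarith [hgA.le x]
  have hexp : ∀ x, Real.exp (-φ x) = 1 - g x := fun x => by
    simp only [hφ, neg_neg]; exact Real.exp_log (hpos x)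
  have hcont : Continuous φ :=
    ((continuous_const.sub hgA.cont).log (fun x => (hpos x).ne')).neg
  have hnn : ∀ x, 0 ≤ φ x := fun x => by
    have := Real.log_nonpos (hpos x).le (by linarith [hgA.nonneg x])
    simp only [hφ]; linarith
  have hsupp : ∀ x, (∃ i, 1 / 2 < |x i|) → φ x = 0 := fun x hx => by
    simp only [hφ]; rw [hgA.supp x hx]; simp
  obtain ⟨hD1, hD2⟩ := hDEL d φ c hcont hnn hsupp (fun x => by rw [hexp]; linarith [hgA.le x])
  have hconn0 : 0 ≤ conn φ := by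
    unfold conn
    refine Real.iInf_nonneg fun k => Real.rpow_nonneg ?_ _
    unfold V
    refine integral_nonneg fun v => Finset.prod_nonneg fun j _ => ?_
    refine mul_nonneg (Real.exp_pos _).le ?_
    rw [hexp]; linarith [hgA.nonneg (path v j - path v (j - 1))]
  have htemp0 : 0 ≤ temp φ := integral_nonneg fun w => abs_nonneg _
  refine ⟨φ, orc g, ⟨hcont, fun x => ?_, hnn, fun x hx => ?_, hcL _ hD1 hconn0,
    hcL _ hD2 htemp0, fun q m => ?_⟩, fun x y hxy => ?_, fun A hA n hn lam hlam k => ?_⟩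
  · simp only [hφ]; rw [hgA.even]
  · apply hsupp
    by_contra hcon
    push Not at hcon
    have h1 : ‖x‖ ^ 2 ≤ (d : ℝ) ^ 2 := by
      rw [EuclideanSpace.norm_sq_eq]
      calc ∑ i, ‖x i‖ ^ 2 ≤ ∑ _i : Fin d, (1 : ℝ) := by
            refine Finset.sum_le_sum fun i _ => ?_
            rw [Real.norm_eq_abs]
            have := hcon i
            have h0 := abs_nonneg (x i)
            nlinarith
        _ = d := by simp
        _ ≤ (d : ℝ) ^ 2 := by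
            have : (1 : ℝ) ≤ d := by exact_mod_cast hd
            nlinarith
    have h2 : ‖x‖ ≤ d := by
      have h3 : (0 : ℝ) ≤ d := by positivity
      exact le_of_sq_le_sq h1 h3
    linarith
  · rw [orc_spec hgA, hexp]
  · have hxy0 : 0 < ‖x - y‖ := norm_pos_iff.2 (sub_ne_zero.2 hxy)
    have hwp := hw.pos _ hxy0
    have h1 := hgw x y hxy
    have h2 := log_sub_le (hhalf x) (hhalf y)
    have h3 := log_sub_le (hhalf y) (hhalf x)
    have h4 : |(1 - g x) - (1 - g y)| = |g x - g y| := by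
      rw [show (1 - g x) - (1 - g y) = -(g x - g y) by ring, abs_neg]
    have h5 : |(1 - g y) - (1 - g x)| = |g x - g y| := by
      congr 1; ring
    rw [h4] at h2
    rw [h5] at h3
    have h6 : 2 * |g x - g y| ≤ w ‖x - y‖ := by nlinarith
    simp only [hφ]
    rw [abs_le]
    constructor <;> linarith
  · obtain ⟨i0, hi0⟩ := hB A hA
    obtain ⟨i, hi⟩ := he (i0, n - 1, ⟨lam, hlam⟩, k)
    obtain ⟨j, h1, h2⟩ := hgF i
    rw [hi] at h2
    simp only at h2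
    have hn' : n - 1 + 1 = n := by omega
    rw [hi0, hn'] at h2
    refine ⟨j, h1, fun z hz => ?_⟩
    rw [hφ, Z_eq hgA hc]
    exact h2 z hz

/-- polynomial bounds are too small for moduli which are weaker than all Hölder moduli -/
lemma poly_slow (hd : 1 ≤ d) {w : ℝ → ℝ}
    (hgrow : ∀ a : ℝ, 0 < a → Tendsto (fun t : ℝ => w t / t ^ a) (𝓝[>] 0) atTop) (M : ℕ)
    (hM : 1 ≤ M) : Slow d w (fun j => M * j ^ M) := by
  intro B
  have hdp : (0 : ℝ) < d := by exact_mod_cast hd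
  have hMp : (0 : ℝ) < M := by exact_mod_cast hM
  have h1 := hgrow ((d : ℝ) / M) (by positivity)
  have h2 := (tendsto_atTop.1 h1) (|B| * (M + 1))
  rw [eventually_nhdsWithin_iff] at h2
  obtain ⟨τ, hτ, hτ'⟩ := Metric.eventually_nhds_iff.1 h2
  have h3 : Tendsto (fun j : ℕ => ((j : ℝ)) ^ (-(1 / (d : ℝ)))) atTop (𝓝 0) :=
    (tendsto_rpow_neg_atTop (show (0 : ℝ) < 1 / (d : ℝ) by positivity)).comp
      tendsto_natCast_atTop_atTop
  obtain ⟨j, hj1, hj2⟩ := ((tendsto_order.1 h3).2 τ hτ |>.and (eventually_ge_atTop 2)).exists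
  refine ⟨j, hj2, ?_⟩
  have hj0 : (0 : ℝ) < j := by
    have : 0 < j := by omega
    exact_mod_cast this
  have hj1' : (1 : ℝ) ≤ j := by
    have : 1 ≤ j := by omega
    exact_mod_cast this
  set u : ℝ := ((((M * j ^ M : ℕ) : ℝ)) + 1) ^ (-(1 / (d : ℝ))) with hu
  have hv : ((M * j ^ M : ℕ) : ℝ) = M * (j : ℝ) ^ M := by push_cast; ring
  have hbase : (0 : ℝ) < ((M * j ^ M : ℕ) : ℝ) + 1 := by positivity
  have hu0 : 0 < u := Real.rpow_pos_of_pos hbase _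
  have huj : u ≤ (j : ℝ) ^ (-(1 / (d : ℝ))) := by
    refine Real.rpow_le_rpow_of_nonpos hj0 ?_ ?_
    · rw [hv]
      have h4 : (j : ℝ) ≤ (j : ℝ) ^ M := by
        calc (j : ℝ) = (j : ℝ) ^ 1 := (pow_one _).symm
          _ ≤ (j : ℝ) ^ M := pow_le_pow_right₀ hj1' hM
      have h5 : (1 : ℝ) ≤ M := by exact_mod_cast hM
      nlinarith [pow_nonneg hj0.le M]
    · have : 0 < 1 / (d : ℝ) := by positivity
      linarith
  have h6 := hτ' (y := u) (by
    rw [Real.dist_eq, sub_zero, abs_of_pos hu0]; linarith) hu0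
  have hua0 : 0 < u ^ ((d : ℝ) / M) := Real.rpow_pos_of_pos hu0 _
  rw [le_div_iff₀ hua0] at h6
  have hua : 1 / (((M : ℝ) + 1) * j) ≤ u ^ ((d : ℝ) / M) := by
    have h7 : u ^ ((d : ℝ) / M) = (((M * j ^ M : ℕ) : ℝ) + 1) ^ (-(1 / (M : ℝ))) := by
      rw [hu, ← Real.rpow_mul hbase.le]
      congr 1
      field_simp
    have h8 : ((M * j ^ M : ℕ) : ℝ) + 1 ≤ (((M : ℝ) + 1) * j) ^ M := by
      rw [hv, mul_pow]
      have h9 : (M : ℝ) + 1 ≤ ((M : ℝ) + 1) ^ M := by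
        calc (M : ℝ) + 1 = ((M : ℝ) + 1) ^ 1 := (pow_one _).symm
          _ ≤ ((M : ℝ) + 1) ^ M := pow_le_pow_right₀ (by linarith) hM
      have h10 : (1 : ℝ) ≤ (j : ℝ) ^ M := one_le_pow₀ hj1'
      calc (M : ℝ) * (j : ℝ) ^ M + 1 ≤ ((M : ℝ) + 1) * (j : ℝ) ^ M := by linarith
        _ ≤ ((M : ℝ) + 1) ^ M * (j : ℝ) ^ M := by gcongr
    have h11 : (0 : ℝ) < ((M : ℝ) + 1) * j := by positivity
    rw [h7]
    calc 1 / (((M : ℝ) + 1) * j) = ((((M : ℝ) + 1) * j) ^ M) ^ (-(1 / (M : ℝ))) := by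
          rw [← Real.rpow_natCast, ← Real.rpow_mul h11.le]
          have : (M : ℝ) * (-(1 / (M : ℝ))) = -1 := by field_simp
          rw [this, Real.rpow_neg_one, one_div]
      _ ≤ (((M * j ^ M : ℕ) : ℝ) + 1) ^ (-(1 / (M : ℝ))) := by
          refine Real.rpow_le_rpow_of_nonpos hbase h8 ?_
          have : 0 < 1 / (M : ℝ) := by positivity
          linarith
  have h12 : |B| ≤ j * w u := by
    have h13 : |B| * (M + 1) * (1 / (((M : ℝ) + 1) * j)) ≤ w u := by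
      refine le_trans (mul_le_mul_of_nonneg_left hua (by positivity)) h6
    have h14 : |B| * (M + 1) * (1 / (((M : ℝ) + 1) * j)) = |B| / j := by field_simp
    rw [h14, div_le_iff₀ hj0] at h13
    linarith
  exact (le_abs_self B).trans h12

/-- bounds below the exponent `d / α` are too small for Hölder moduli -/
lemma hoelder_slow (hd : 1 ≤ d) {α : ℝ} (hα : 0 < α) (M : ℕ) {β : ℝ} (hβ0 : 0 ≤ β)
    (hβ : β < d / α) :
    Slow d (fun t => t ^ α) (fun j => ⌊((M : ℝ) + 1) * (j : ℝ) ^ β⌋₊) := by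
  intro B
  have hdp : (0 : ℝ) < d := by exact_mod_cast hd
  have hMp : (0 : ℝ) < (M : ℝ) + 2 := by positivity
  have hexp : 0 < 1 - β * α / d := by
    rw [lt_div_iff₀ hα] at hβ
    have : β * α / d < 1 := by rw [div_lt_one hdp]; exact hβ
    linarith
  have h3 : Tendsto (fun j : ℕ => ((M : ℝ) + 2) ^ (-(α / d)) * (j : ℝ) ^ (1 - β * α / d)) atTop
      atTop :=
    Tendsto.const_mul_atTop (Real.rpow_pos_of_pos hMp _)
      ((tendsto_rpow_atTop hexp).comp tendsto_natCast_atTop_atTop)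
  obtain ⟨j, hj1, hj2⟩ := ((tendsto_atTop.1 h3 B).and (eventually_ge_atTop 2)).exists
  refine ⟨j, hj2, hj1.trans ?_⟩
  have hj0 : (0 : ℝ) < j := by
    have : 0 < j := by omega
    exact_mod_cast this
  have hj1' : (1 : ℝ) ≤ j := by
    have : 1 ≤ j := by omega
    exact_mod_cast this
  have hjβ : (1 : ℝ) ≤ (j : ℝ) ^ β := Real.one_le_rpow hj1' hβ0
  have hfl : ((⌊((M : ℝ) + 1) * (j : ℝ) ^ β⌋₊ : ℕ) : ℝ) ≤ ((M : ℝ) + 1) * (j : ℝ) ^ β :=
    Nat.floor_le (by positivity)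
  have hbase : (0 : ℝ) < ((⌊((M : ℝ) + 1) * (j : ℝ) ^ β⌋₊ : ℕ) : ℝ) + 1 := by positivity
  have h5 : ((⌊((M : ℝ) + 1) * (j : ℝ) ^ β⌋₊ : ℕ) : ℝ) + 1 ≤ ((M : ℝ) + 2) * (j : ℝ) ^ β := by
    nlinarith
  have hneg : -(α / (d : ℝ)) ≤ 0 := by
    have : 0 < α / (d : ℝ) := by positivity
    linarith
  have h6 : (((⌊((M : ℝ) + 1) * (j : ℝ) ^ β⌋₊ : ℕ) : ℝ) + 1) ^ (-(1 / (d : ℝ))) =
      (((⌊((M : ℝ) + 1) * (j : ℝ) ^ β⌋₊ : ℕ) : ℝ) + 1) ^ (-(1 / (d : ℝ))) := rfl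
  have h7 : ((((⌊((M : ℝ) + 1) * (j : ℝ) ^ β⌋₊ : ℕ) : ℝ) + 1) ^ (-(1 / (d : ℝ)))) ^ α =
      (((⌊((M : ℝ) + 1) * (j : ℝ) ^ β⌋₊ : ℕ) : ℝ) + 1) ^ (-(α / (d : ℝ))) := by
    rw [← Real.rpow_mul hbase.le]
    congr 1
    ring
  simp only
  rw [h7]
  have h8 : (((M : ℝ) + 2) * (j : ℝ) ^ β) ^ (-(α / (d : ℝ))) ≤
      (((⌊((M : ℝ) + 1) * (j : ℝ) ^ β⌋₊ : ℕ) : ℝ) + 1) ^ (-(α / (d : ℝ))) :=
    Real.rpow_le_rpow_of_nonpos hbase h5 hneg
  have h9 : (((M : ℝ) + 2) * (j : ℝ) ^ β) ^ (-(α / (d : ℝ))) =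
      ((M : ℝ) + 2) ^ (-(α / (d : ℝ))) * (j : ℝ) ^ (-(β * α / (d : ℝ))) := by
    rw [Real.mul_rpow hMp.le (by positivity), ← Real.rpow_mul hj0.le]
    congr 2
    ring
  calc ((M : ℝ) + 2) ^ (-(α / (d : ℝ))) * (j : ℝ) ^ (1 - β * α / d)
      = j * (((M : ℝ) + 2) ^ (-(α / (d : ℝ))) * (j : ℝ) ^ (-(β * α / (d : ℝ)))) := by
        rw [show 1 - β * α / d = 1 + (-(β * α / (d : ℝ))) by ring, Real.rpow_add hj0,
          Real.rpow_one]
        ring
    _ ≤ j * (((⌊((M : ℝ) + 1) * (j : ℝ) ^ β⌋₊ : ℕ) : ℝ) + 1) ^ (-(α / (d : ℝ))) := by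
        rw [← h9]
        exact mul_le_mul_of_nonneg_left h8 hj0.le

/-- Hölder moduli -/
lemma mod_hoelder {α : ℝ} (hα0 : 0 < α) (hα1 : α ≤ 1) : Mod (fun t => t ^ α) := by
  refine ⟨fun t ht => Real.rpow_pos_of_pos ht _, fun s t hs hst =>
    Real.rpow_le_rpow hs.le hst hα0.le, fun s t hs hst => ?_⟩
  have ht : 0 < t := lt_of_lt_of_le hs hst
  have h1 : t ^ α = t * t ^ (-(1 - α)) := by
    rw [show α = 1 + (-(1 - α)) by ring, Real.rpow_add ht, Real.rpow_one]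
    congr 2; ring
  have h2 : s ^ α = s * s ^ (-(1 - α)) := by
    rw [show α = 1 + (-(1 - α)) by ring, Real.rpow_add hs, Real.rpow_one]
    congr 2; ring
  have h3 : t ^ (-(1 - α)) ≤ s ^ (-(1 - α)) :=
    Real.rpow_le_rpow_of_nonpos hs hst (by linarith)
  rw [h1, h2]
  have h4 : 0 < s * t := by positivity
  nlinarith [mul_le_mul_of_nonneg_left h3 h4.le]

/-- the three parts -/
theorem main_all (hLIP : S_LIP) (hLOW : S_LOW) (hBUMP : S_BUMP) (hBUMP2 : S_BUMP2)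
    (hDEL : S_DEL) (d : ℕ) (hd : 1 ≤ d) (L : ℝ) (𝒜 : Set (Alg d)) (h𝒜 : 𝒜.Countable) :
    (∃ (φ : E d → ℝ) (O : (Fin d → ℚ) → ℕ → ℚ), Weak L φ O ∧
      ∀ A ∈ 𝒜, ∀ n : ℕ, 1 ≤ n → ∀ lam : ℚ, 0 < lam →
        ¬ Approximates A O n (Z φ (box d n) lam)) ∧
    (∀ w : ℝ → ℝ, (∀ s t : ℝ, 0 < s → s ≤ t → w s ≤ w t ∧ w t / t ≤ w s / s) →
      (∀ a : ℝ, 0 < a → Tendsto (fun t : ℝ => w t / t ^ a) (𝓝[>] 0) atTop) →
      ∃ (φ : E d → ℝ) (O : (Fin d → ℚ) → ℕ → ℚ), Weak L φ O ∧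
        (∀ x y, x ≠ y → |φ x - φ y| ≤ w ‖x - y‖) ∧
        ∀ A ∈ 𝒜, ∀ n : ℕ, 1 ≤ n → ∀ lam : ℚ, 0 < lam → ∀ K : ℕ,
          ¬ ApproximatesIn A O n (Z φ (box d n) lam) (fun ε => K * (1 / (ε : ℝ)) ^ K)) ∧
    (∀ α : ℝ, 0 < α → α ≤ 1 →
      ∃ (φ : E d → ℝ) (O : (Fin d → ℚ) → ℕ → ℚ), Weak L φ O ∧
        (∀ x y, |φ x - φ y| ≤ ‖x - y‖ ^ α) ∧
        ∀ A ∈ 𝒜, ∀ n : ℕ, 1 ≤ n → ∀ lam : ℚ, 0 < lam → ∀ (K : ℕ) (β : ℝ), β < d / α →
          ¬ ApproximatesIn A O n (Z φ (box d n) lam) (fun ε => K * (1 / (ε : ℝ)) ^ β)) := by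
  have hdp : (0 : ℝ) < d := by exact_mod_cast hd
  refine ⟨?_, ?_, ?_⟩
  · obtain ⟨φ, h1, h2, h3, h4, h5, h6, O, h7, h8⟩ := main_of hLIP hLOW hBUMP hDEL hd L 𝒜 h𝒜
    exact ⟨φ, O, ⟨h1, h2, h3, h4, h5, h6, h7⟩, h8⟩
  · intro w hw hgrow
    have hpos : ∀ t : ℝ, 0 < t → 0 < w t := by
      intro t ht
      have h1 := (tendsto_atTop.1 (hgrow 1 one_pos)) 1
      rw [eventually_nhdsWithin_iff] at h1
      obtain ⟨τ, hτ, hτ'⟩ := Metric.eventually_nhds_iff.1 h1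
      set s := min t (τ / 2) with hs
      have hs0 : 0 < s := by positivity
      have hsτ : s < τ := lt_of_le_of_lt (min_le_right _ _) (by linarith)
      have h2 := hτ' (y := s) (by rw [Real.dist_eq, sub_zero, abs_of_pos hs0]; exact hsτ) hs0
      rw [Real.rpow_one, le_div_iff₀ hs0] at h2
      have h3 := (hw s t hs0 (min_le_left _ _)).1
      linarith
    have hmod : Mod w := ⟨hpos, fun s t hs hst => (hw s t hs hst).1, fun s t hs hst => by
      have h1 := (hw s t hs hst).2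
      have ht : 0 < t := lt_of_lt_of_le hs hst
      rwa [div_le_div_iff₀ ht hs] at h1⟩
    obtain ⟨φ, O, h1, h2, h3⟩ := main_of2 hLIP hLOW hBUMP2 hDEL hd L 𝒜 h𝒜 hmod
      (fun K j => (K + 1) * j ^ (K + 1)) (fun K => poly_slow hd hgrow (K + 1) (by omega))
    refine ⟨φ, O, h1, h2, fun A hA n hn lam hlam K hcon => ?_⟩
    obtain ⟨j, hj2, hj⟩ := h3 A hA n hn lam hlam K
    have hj0 : (0 : ℚ) < j := by
      have : 0 < j := by omega
      exact_mod_cast this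
    obtain ⟨T, z, hT, hz, hz1⟩ := hcon (1 / (j : ℚ)) (by positivity) (by
      rw [div_lt_one hj0]
      have : 1 < j := by omega
      exact_mod_cast this)
    have hcast : (((1 / (j : ℚ) : ℚ)) : ℝ) = 1 / (j : ℝ) := by push_cast; ring
    rw [hcast] at hz1
    have hT' : (T : ℝ) ≤ K * (1 / (((1 / (j : ℚ) : ℚ)) : ℝ)) ^ K := hT
    rw [hcast, one_div_one_div] at hT'
    have hTn : T ≤ (K + 1) * j ^ (K + 1) := by
      have h4 : (T : ℝ) ≤ ((K * j ^ K : ℕ) : ℝ) := by push_cast; exact hT'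
      have h5 : T ≤ K * j ^ K := by exact_mod_cast h4
      have h6 : j ^ K ≤ j ^ (K + 1) := Nat.pow_le_pow_right (by omega) (by omega)
      exact h5.trans (Nat.mul_le_mul (by omega) h6)
    exact hj z (run_mono _ _ _ _ _ _ hTn hz) hz1
  · intro α hα0 hα1
    have hmod : Mod (fun t : ℝ => t ^ α) := mod_hoelder hα0 hα1
    obtain ⟨φ, O, h1, h2, h3⟩ := main_of2 hLIP hLOW hBUMP2 hDEL hd L 𝒜 h𝒜 hmod
      (fun M j => ⌊((M : ℝ) + 1) * (j : ℝ) ^ (max 0 ((d : ℝ) / α - 1 / ((M : ℝ) + 1)))⌋₊)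
      (fun M => hoelder_slow hd hα0 M (le_max_left _ _) (by
        rw [max_lt_iff]
        constructor
        · positivity
        · have : (0 : ℝ) < 1 / ((M : ℝ) + 1) := by positivity
          linarith))
    refine ⟨φ, O, h1, fun x y => ?_, fun A hA n hn lam hlam K β hβ hcon => ?_⟩
    · rcases eq_or_ne x y with rfl | hxy
      · simp [Real.zero_rpow hα0.ne']
      · exact h2 x y hxy
    · obtain ⟨M0, hM0⟩ := exists_nat_gt (1 / ((d : ℝ) / α - β))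
      have hgap : 0 < (d : ℝ) / α - β := by linarith
      set M := max K M0 with hM
      have hMβ : β ≤ (d : ℝ) / α - 1 / ((M : ℝ) + 1) := by
        have h4 : 1 / ((M : ℝ) + 1) ≤ (d : ℝ) / α - β := by
          have h5 : 1 / ((d : ℝ) / α - β) < (M : ℝ) + 1 := by
            have : (M0 : ℝ) ≤ M := by exact_mod_cast le_max_right K M0
            linarith
          rw [div_lt_iff₀ hgap] at h5
          rw [div_le_iff₀ (by positivity)]
          linarith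
        linarith
      obtain ⟨j, hj2, hj⟩ := h3 A hA n hn lam hlam M
      have hj0 : (0 : ℚ) < j := by
        have : 0 < j := by omega
        exact_mod_cast this
      have hj1 : (1 : ℝ) ≤ j := by
        have : 1 ≤ j := by omega
        exact_mod_cast this
      obtain ⟨T, z, hT, hz, hz1⟩ := hcon (1 / (j : ℚ)) (by positivity) (by
        rw [div_lt_one hj0]
        have : 1 < j := by omega
        exact_mod_cast this)
      have hcast : (((1 / (j : ℚ) : ℚ)) : ℝ) = 1 / (j : ℝ) := by push_cast; ring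
      rw [hcast] at hz1
      have hT' : (T : ℝ) ≤ K * (1 / (((1 / (j : ℚ) : ℚ)) : ℝ)) ^ β := hT
      rw [hcast, one_div_one_div] at hT'
      have hTn : T ≤ ⌊((M : ℝ) + 1) * (j : ℝ) ^ (max 0 ((d : ℝ) / α - 1 / ((M : ℝ) + 1)))⌋₊ := by
        apply Nat.le_floor
        refine hT'.trans ?_
        have hKM : (K : ℝ) ≤ (M : ℝ) + 1 := by
          have : (K : ℝ) ≤ M := by exact_mod_cast le_max_left K M0
          linarith
        exact mul_le_mul hKM (Real.rpow_le_rpow_of_exponent_le hj1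
          (hMβ.trans (le_max_right _ _))) (by positivity) (by positivity)
      exact hj z (run_mono _ _ _ _ _ _ hTn hz) hz1

end Pool.Agent.Y572.GP
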