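import Pool.Agent.Y572.GP.Defs

/-!
# Bumps vanishing at finitely many rational points (helper168)
-/

set_option autoImplicit false

namespace Pool.Agent.Y572.GP

open MeasureTheory Filter Topology

namespace BUMP

variable {d : ℕ}

/-- sup norm -/
noncomputable def N (x : E d) : ℝ := ‖(WithLp.ofLp x : Fin d → ℝ)‖

theorem N_cont : Continuous (N : E d → ℝ) := by
  unfold N
  fun_prop

theorem N_neg (x : E d) : N (-x) = N x := by
  unfold N
  rw [WithLp.ofLp_neg, norm_neg]

theorem N_nonneg (x : E d) : 0 ≤ N x := norm_nonneg _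

theorem N_eq_zero {x : E d} (h : N x = 0) : x = 0 := by
  have h1 : (WithLp.ofLp x : Fin d → ℝ) = 0 := norm_eq_zero.1 h
  ext i
  exact congrFun h1 i

theorem le_N (x : E d) (i : Fin d) : |x i| ≤ N x := norm_le_pi_norm (WithLp.ofLp x) i

/-- the sup norm of a rational vector is rational -/
theorem N_rat (q : Fin d → ℚ) : ∃ r : ℚ, N (pt q) = r := by
  have h1 : ∀ s : Finset (Fin d), ∃ r : ℚ, 0 ≤ r ∧
      ((s.sup fun i => ‖((q i : ℚ) : ℝ)‖₊ : NNReal) : ℝ) = r := by
    intro s
    induction s using Finset.induction_on with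
    | empty => exact ⟨0, le_rfl, by simp⟩
    | insert i s hi ih =>
      obtain ⟨r, hr0, hr⟩ := ih
      refine ⟨max |q i| r, le_max_of_le_left (abs_nonneg _), ?_⟩
      rw [Finset.sup_insert, NNReal.coe_max, hr, Rat.cast_max, Rat.cast_abs, coe_nnnorm,
        Real.norm_eq_abs]
  obtain ⟨r, -, hr⟩ := h1 Finset.univ
  refine ⟨r, ?_⟩
  rw [← hr, N, pt, Pi.norm_def]

theorem pt_sub (q q' : Fin d → ℚ) : pt q - pt q' = pt (q - q') := by
  ext i
  simp [pt]

theorem pt_neg (q : Fin d → ℚ) : -pt q = pt (-q) := by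
  ext i
  simp [pt]

/-- the tent -/
noncomputable def psi (x : E d) : ℝ := max 0 (1 / 2 - N x)

theorem psi_cont : Continuous (psi : E d → ℝ) := continuous_const.max (continuous_const.sub N_cont)

theorem psi_nonneg (x : E d) : 0 ≤ psi x := le_max_left _ _

theorem psi_le (x : E d) : psi x ≤ 1 / 2 := max_le (by norm_num) (by linarith [N_nonneg x])

theorem psi_supp (x : E d) (h : ∃ i, 1 / 2 < |x i|) : psi x = 0 := by
  obtain ⟨i, hi⟩ := h
  exact max_eq_left (by linarith [le_N x i])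

theorem psi_rat (q : Fin d → ℚ) : ∃ r : ℚ, psi (pt q) = r := by
  obtain ⟨r, hr⟩ := N_rat q
  refine ⟨max 0 (1 / 2 - r), ?_⟩
  rw [psi, hr]
  push_cast
  rfl

theorem psi_cs : HasCompactSupport (psi : E d → ℝ) := by
  refine HasCompactSupport.of_support_subset_isCompact
    (K := (EuclideanSpace.equiv (Fin d) ℝ).toHomeomorph ⁻¹'
      (Set.Icc (fun _ => -(1 / 2 : ℝ)) (fun _ => (1 / 2 : ℝ))))
    ((EuclideanSpace.equiv (Fin d) ℝ).toHomeomorph.isCompact_preimage.2 isCompact_Icc) ?_
  intro x hx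
  have h1 : ∀ i, |x i| ≤ 1 / 2 := by
    intro i
    by_contra hi
    exact hx (psi_supp x ⟨i, not_le.1 hi⟩)
  exact ⟨fun i => (abs_le.1 (h1 i)).1, fun i => (abs_le.1 (h1 i)).2⟩

theorem psi_int : Integrable (psi : E d → ℝ) := psi_cont.integrable_of_hasCompactSupport psi_cs

theorem psi_pos : 0 < ∫ x : E d, psi x := by
  refine psi_cont.integral_pos_of_hasCompactSupport_nonneg_nonzero psi_cs psi_nonneg (x := 0) ?_
  have h1 : N (0 : E d) = 0 := by
    unfold N
    rw [WithLp.ofLp_zero, norm_zero]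
  rw [psi, h1]
  norm_num

/-- distance to a finite set, truncated at one -/
noncomputable def D (F : Finset (Fin d → ℚ)) (x : E d) : ℝ :=
  ∏ q ∈ F, (min 1 (N (x - pt q)) * min 1 (N (x + pt q)))

theorem D_cont (F : Finset (Fin d → ℚ)) : Continuous (D F) := by
  unfold D
  refine continuous_finsetProd _ fun q _ => ?_
  exact (continuous_const.min (N_cont.comp (continuous_id.sub continuous_const))).mul
    (continuous_const.min (N_cont.comp (continuous_id.add continuous_const)))

theorem D_even (F : Finset (Fin d → ℚ)) (x : E d) : D F (-x) = D F x := by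
  refine Finset.prod_congr rfl fun q _ => ?_
  have h1 : N (-x - pt q) = N (x + pt q) := by
    rw [← N_neg (x + pt q)]
    congr 1
    abel
  have h2 : N (-x + pt q) = N (x - pt q) := by
    rw [← N_neg (x - pt q)]
    congr 1
    abel
  rw [h1, h2, mul_comm]

theorem D_nonneg (F : Finset (Fin d → ℚ)) (x : E d) : 0 ≤ D F x :=
  Finset.prod_nonneg fun _ _ => mul_nonneg (le_min zero_le_one (N_nonneg _))
    (le_min zero_le_one (N_nonneg _))

theorem D_zero (F : Finset (Fin d → ℚ)) {q : Fin d → ℚ} (hq : q ∈ F) : D F (pt q) = 0 := by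
  refine Finset.prod_eq_zero hq ?_
  have h1 : N (pt q - pt q) = 0 := by
    unfold N
    rw [sub_self, WithLp.ofLp_zero, norm_zero]
  rw [h1, min_eq_right zero_le_one, zero_mul]

theorem D_pos (F : Finset (Fin d → ℚ)) {x : E d} (h1 : ∀ q ∈ F, x ≠ pt q)
    (h2 : ∀ q ∈ F, x ≠ -pt q) : 0 < D F x := by
  refine Finset.prod_pos fun q hq => mul_pos (lt_min one_pos ?_) (lt_min one_pos ?_)
  · refine lt_of_le_of_ne (N_nonneg _) fun h => h1 q hq ?_
    exact sub_eq_zero.1 (N_eq_zero h.symm)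
  · refine lt_of_le_of_ne (N_nonneg _) fun h => h2 q hq ?_
    exact eq_neg_of_add_eq_zero_left (N_eq_zero h.symm)

theorem D_rat (F : Finset (Fin d → ℚ)) (q : Fin d → ℚ) : ∃ r : ℚ, D F (pt q) = r := by
  have h1 : ∀ p : Fin d → ℚ, ∃ r : ℚ,
      min 1 (N (pt q - pt p)) * min 1 (N (pt q + pt p)) = r := by
    intro p
    obtain ⟨r, hr⟩ := N_rat (q - p)
    obtain ⟨s, hs⟩ := N_rat (q - -p)
    refine ⟨min 1 r * min 1 s, ?_⟩
    rw [pt_sub, hr, ← sub_neg_eq_add, pt_neg, pt_sub, hs]
    push_cast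
    rfl
  choose r hr using h1
  refine ⟨∏ p ∈ F, r p, ?_⟩
  rw [D, Finset.prod_congr rfl fun p _ => hr p]
  push_cast
  rfl

end BUMP

open BUMP in
theorem t_BUMP : S_BUMP := by
  intro d hd
  refine ⟨(∫ x : E d, psi x), psi_pos, ?_⟩
  intro F δ hδ
  have hδ' : (0 : ℝ) < δ := by exact_mod_cast hδ
  obtain ⟨h, hh⟩ : ∃ h : ℕ → E d → ℝ, ∀ m x, h m x = δ * min (2 * psi x) (m * D F x) :=
    ⟨_, fun _ _ => rfl⟩
  have h0 : ∀ m x, 0 ≤ h m x := fun m x => by
    rw [hh]
    exact mul_nonneg hδ'.le (le_min (mul_nonneg (by norm_num) (psi_nonneg x))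
      (mul_nonneg (Nat.cast_nonneg m) (D_nonneg F x)))
  have h1 : ∀ m x, h m x ≤ δ * (2 * psi x) := fun m x => by
    rw [hh]
    exact mul_le_mul_of_nonneg_left (min_le_left _ _) hδ'.le
  have hc : ∀ m, Continuous (h m) := fun m => by
    have : h m = fun x => (δ : ℝ) * min (2 * psi x) (m * D F x) := by
      funext x
      rw [hh]
    rw [this]
    exact continuous_const.mul ((continuous_const.mul psi_cont).min
      (continuous_const.mul (D_cont F)))
  have hadm : ∀ m, Adm (δ : ℝ) (h m) := by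
    intro m
    refine ⟨hc m, fun x => ?_, h0 m, fun x => ?_, fun x hx => ?_, fun q => ?_⟩
    · rw [hh, hh, D_even, psi, psi, N_neg]
    · refine (h1 m x).trans ?_
      have := psi_le x
      nlinarith
    · rw [hh, psi_supp x hx, mul_zero, min_eq_left (mul_nonneg (Nat.cast_nonneg m) (D_nonneg F x)),
        mul_zero]
    · obtain ⟨r, hr⟩ := psi_rat q
      obtain ⟨s, hs⟩ := D_rat F q
      refine ⟨δ * min (2 * r) (m * s), ?_⟩
      rw [hh, hr, hs]
      push_cast
      rfl
  have hlim : Tendsto (fun m => ∫ x, h m x) atTop (𝓝 (∫ x : E d, (δ : ℝ) * (2 * psi x))) := by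
    refine tendsto_integral_of_dominated_convergence (fun x : E d => (δ : ℝ) * (2 * psi x))
      (fun m => (hc m).aestronglyMeasurable) ((psi_int.const_mul 2).const_mul _)
      (fun m => Eventually.of_forall fun x => ?_) ?_
    · rw [Real.norm_eq_abs, abs_of_nonneg (h0 m x)]
      exact h1 m x
    · have hfin : ((fun q : Fin d → ℚ => pt q) '' (F : Set (Fin d → ℚ)) ∪
          (fun q : Fin d → ℚ => -pt q) '' (F : Set (Fin d → ℚ))).Finite :=
        (F.finite_toSet.image _).union (F.finite_toSet.image _)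
      have : Nonempty (Fin d) := ⟨⟨0, hd⟩⟩
      have hnull := hfin.measure_zero (volume : Measure (E d))
      filter_upwards [measure_eq_zero_iff_ae_notMem.1 hnull] with x hx
      have hx1 : ∀ q ∈ F, x ≠ pt q := fun q hq hq' => hx (Or.inl ⟨q, hq, hq'.symm⟩)
      have hx2 : ∀ q ∈ F, x ≠ -pt q := fun q hq hq' => hx (Or.inr ⟨q, hq, hq'.symm⟩)
      have hD := D_pos F hx1 hx2
      refine tendsto_const_nhds.congr' ?_
      obtain ⟨M, hM⟩ := exists_nat_gt (2 * psi x / D F x)
      filter_upwards [eventually_ge_atTop M] with m hm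
      rw [hh, min_eq_left]
      rw [div_lt_iff₀ hD] at hM
      have : (M : ℝ) ≤ m := by exact_mod_cast hm
      nlinarith
  have hval : ∫ x : E d, (δ : ℝ) * (2 * psi x) = δ * (2 * ∫ x : E d, psi x) := by
    rw [integral_const_mul, integral_const_mul]
  rw [hval] at hlim
  have hlt : (∫ x : E d, psi x) * δ < δ * (2 * ∫ x : E d, psi x) := by
    have := mul_pos hδ' (psi_pos (d := d))
    nlinarith
  obtain ⟨m, hm⟩ := (hlim.eventually (lt_mem_nhds hlt)).exists
  refine ⟨h m, hadm m, fun q hq => ?_, hm.le⟩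
  rw [hh, D_zero F hq, mul_zero, min_eq_right (mul_nonneg (by norm_num) (psi_nonneg _)), mul_zero]

end Pool.Agent.Y572.GP
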