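import Pool.Agent.Y572.GP.Defs2
import Pool.Agent.Y572.GP.BUMP

/-!
# Lipschitz bumps vanishing at finitely many rational points (helper76)
-/

set_option autoImplicit false

namespace Pool.Agent.Y572.GP

open MeasureTheory Filter Topology

namespace BUMP2

variable {d : ℕ}
open BUMP

theorem N_lip (x y : E d) : |N x - N y| ≤ ‖x - y‖ := by
  have h1 : |N x - N y| ≤ N (x - y) := by
    unfold N
    rw [WithLp.ofLp_sub]
    exact abs_norm_sub_norm_le _ _
  have h2 : N (x - y) ≤ ‖x - y‖ := by
    unfold N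
    rw [pi_norm_le_iff_of_nonneg (norm_nonneg _)]
    intro i
    exact PiLp.norm_apply_le (x - y) i
  exact h1.trans h2

theorem min_lip {a b a' b' t : ℝ} (h1 : |a - a'| ≤ t) (h2 : |b - b'| ≤ t) :
    |min a b - min a' b'| ≤ t :=
  (abs_min_sub_min_le_max a b a' b').trans (max_le h1 h2)

/-- the distance to the complement of the cube and to the given points -/
theorem exists_D (F : Finset (Fin d → ℚ)) : ∃ D : E d → ℝ,
    (∀ x y, |D x - D y| ≤ ‖x - y‖) ∧ (∀ x, D (-x) = D x) ∧ (∀ x, D x ≤ 1 / 2 - N x) ∧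
    (∀ q ∈ F, D (pt q) ≤ 0) ∧ (∀ q : Fin d → ℚ, ∃ s : ℚ, D (pt q) = s) ∧
    ∀ (r : ℝ) (x : E d), r ≤ 1 / 4 → N x ≤ 1 / 4 →
      (∀ q ∈ F, r ≤ N (x - pt q) ∧ r ≤ N (x + pt q)) → r ≤ D x := by
  classical
  induction F using Finset.induction_on with
  | empty =>
    refine ⟨fun x => 1 / 2 - N x, ?_, ?_, fun x => le_rfl, ?_, ?_, ?_⟩
    · intro x y
      have h1 : 1 / 2 - N x - (1 / 2 - N y) = -(N x - N y) := by ring
      rw [h1, abs_neg]
      exact N_lip x y
    · intro x
      change 1 / 2 - N (-x) = 1 / 2 - N x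
      rw [N_neg]
    · intro q hq
      simp at hq
    · intro q
      obtain ⟨s, hs⟩ := N_rat q
      refine ⟨1 / 2 - s, ?_⟩
      change 1 / 2 - N (pt q) = _
      rw [hs]
      push_cast
      ring
    · intro r x hr hx _
      change r ≤ 1 / 2 - N x
      linarith
  | insert q F hq ih =>
    obtain ⟨D, h1, h2, h3, h4, h5, h6⟩ := ih
    refine ⟨fun x => min (D x) (min (N (x - pt q)) (N (x + pt q))), ?_, ?_, ?_, ?_, ?_, ?_⟩
    · intro x y
      refine min_lip (h1 x y) (min_lip ?_ ?_)
      · have := N_lip (x - pt q) (y - pt q)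
        rwa [sub_sub_sub_cancel_right] at this
      · have := N_lip (x + pt q) (y + pt q)
        rwa [add_sub_add_right_eq_sub] at this
    · intro x
      have e1 : N (-x - pt q) = N (x + pt q) := by
        rw [← N_neg (x + pt q)]
        congr 1
        abel
      have e2 : N (-x + pt q) = N (x - pt q) := by
        rw [← N_neg (x - pt q)]
        congr 1
        abel
      change min (D (-x)) (min (N (-x - pt q)) (N (-x + pt q))) = _
      rw [h2, e1, e2, min_comm (N (x + pt q))]
    · intro x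
      exact (min_le_left _ _).trans (h3 x)
    · intro p hp
      rcases Finset.mem_insert.1 hp with rfl | hp
      · have e1 : N (pt p - pt p) = 0 := by
          unfold N
          rw [sub_self, WithLp.ofLp_zero, norm_zero]
        exact (min_le_right _ _).trans ((min_le_left _ _).trans e1.le)
      · exact (min_le_left _ _).trans (h4 p hp)
    · intro p
      obtain ⟨s, hs⟩ := h5 p
      obtain ⟨s1, hs1⟩ := N_rat (p - q)
      obtain ⟨s2, hs2⟩ := N_rat (p - -q)
      refine ⟨min s (min s1 s2), ?_⟩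
      change min (D (pt p)) (min (N (pt p - pt q)) (N (pt p + pt q))) = _
      rw [hs, pt_sub, hs1, ← sub_neg_eq_add, pt_neg, pt_sub, hs2]
      push_cast
      rfl
    · intro r x hr hx hF
      refine le_min (h6 r x hr hx fun p hp => hF p (Finset.mem_insert_of_mem hp)) ?_
      exact le_min (hF q (Finset.mem_insert_self _ _)).1 (hF q (Finset.mem_insert_self _ _)).2

/-- volume of the cubes -/
theorem vol_cube {r : ℝ} (hr : 0 < r) (p : E d) :
    volume {x : E d | N (x - p) < r} = ENNReal.ofReal ((2 * r) ^ d) := by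
  have h1 : {x : E d | N (x - p) < r} =
      (WithLp.ofLp : E d → (Fin d → ℝ)) ⁻¹' Metric.ball (WithLp.ofLp p) r := by
    ext x
    simp only [Set.mem_ofPred_eq, Set.mem_preimage, Metric.mem_ball, dist_eq_norm]
    unfold N
    rw [WithLp.ofLp_sub]
  rw [h1, (PiLp.volume_preserving_ofLp (Fin d)).measure_preimage
    Metric.isOpen_ball.measurableSet.nullMeasurableSet, Real.volume_pi_ball _ hr, Fintype.card_fin]

theorem vol_box : volume {x : E d | N x ≤ 1 / 4} = ENNReal.ofReal ((1 / 2) ^ d) := by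
  have h1 : {x : E d | N x ≤ 1 / 4} =
      (WithLp.ofLp : E d → (Fin d → ℝ)) ⁻¹' Metric.closedBall 0 (1 / 4) := by
    ext x
    simp only [Set.mem_ofPred_eq, Set.mem_preimage, Metric.mem_closedBall, dist_zero_right]
    rfl
  rw [h1, (PiLp.volume_preserving_ofLp (Fin d)).measure_preimage
    Metric.isClosed_closedBall.measurableSet.nullMeasurableSet,
    Real.volume_pi_closedBall _ (by norm_num), Fintype.card_fin]
  norm_num

end BUMP2

open BUMP BUMP2 in
theorem t_BUMP2 : S_BUMP2 := by
  intro d hd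
  refine ⟨1 / 4 ^ (d + 1), by positivity, ?_⟩
  intro F δ r hδ hr hF
  have hδ' : (0 : ℝ) < δ := by exact_mod_cast hδ
  have hr' : (0 : ℝ) < r := by exact_mod_cast hr
  obtain ⟨D, D1, D2, D3, D4, D5, D6⟩ := exists_D F
  have hrd : (0 : ℝ) < (r : ℝ) ^ d := by positivity
  have hF0 : (0 : ℝ) ≤ F.card := Nat.cast_nonneg _
  -- `r < 1/4`
  have hr4 : (r : ℝ) < 1 / 4 := by
    have h1 : (r : ℝ) ^ d ≤ 1 / 4 ^ (d + 1) := by nlinarith
    have h2 : (1 : ℝ) / 4 ^ (d + 1) < (1 / 4) ^ d := by
      rw [div_pow, one_pow, pow_succ]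
      apply div_lt_div_of_pos_left one_pos (by positivity)
      have : (0 : ℝ) < 4 ^ d := by positivity
      linarith
    exact lt_of_pow_lt_pow_left₀ d (by norm_num) (h1.trans_lt h2)
  have hDc : Continuous D := by
    have : LipschitzWith 1 D := LipschitzWith.of_dist_le_mul fun x y => by
      rw [Real.dist_eq, NNReal.coe_one, one_mul, dist_eq_norm]
      exact D1 x y
    exact this.continuous
  let h : E d → ℝ := fun x => δ * max 0 (min 1 (D x / r))
  have hh : ∀ x, h x = δ * max 0 (min 1 (D x / r)) := fun _ => rfl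
  have hc : Continuous h :=
    continuous_const.mul (continuous_const.max (continuous_const.min (hDc.div_const _)))
  have h0 : ∀ x, 0 ≤ h x := fun x => mul_nonneg hδ'.le (le_max_left _ _)
  have hneg : ∀ x, D x ≤ 0 → h x = 0 := by
    intro x hx
    rw [hh, max_eq_left ((min_le_right _ _).trans (div_nonpos_of_nonpos_of_nonneg hx hr'.le)),
      mul_zero]
  have hsupp : ∀ x, (∃ i, 1 / 2 < |x i|) → h x = 0 := by
    rintro x ⟨i, hi⟩
    apply hneg
    have h1 := D3 x
    have h2 := le_N x i
    linarith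
  have hadm : Adm (δ : ℝ) h := by
    refine ⟨hc, fun x => ?_, h0, fun x => ?_, hsupp, fun q => ?_⟩
    · rw [hh, hh, D2]
    · rw [hh]
      have h1 : max 0 (min 1 (D x / r)) ≤ 1 := max_le zero_le_one (min_le_left _ _)
      calc (δ : ℝ) * max 0 (min 1 (D x / r)) ≤ δ * 1 := mul_le_mul_of_nonneg_left h1 hδ'.le
        _ = δ := mul_one _
    · obtain ⟨s, hs⟩ := D5 q
      refine ⟨δ * max 0 (min 1 (s / r)), ?_⟩
      rw [hh, hs]
      push_cast
      rfl
  have hlip : ∀ x y, |h x - h y| ≤ (δ : ℝ) / r * ‖x - y‖ := by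
    intro x y
    rw [hh, hh, ← mul_sub, abs_mul, abs_of_pos hδ']
    have h1 : |max 0 (min 1 (D x / r)) - max 0 (min 1 (D y / r))| ≤ |D x / r - D y / r| := by
      refine (abs_max_sub_max_le_max 0 _ 0 _).trans ?_
      rw [sub_self, abs_zero]
      refine max_le (abs_nonneg _) ?_
      refine (abs_min_sub_min_le_max 1 _ 1 _).trans ?_
      rw [sub_self, abs_zero]
      exact max_le (abs_nonneg _) le_rfl
    have h2 : |D x / r - D y / r| ≤ ‖x - y‖ / r := by
      rw [← sub_div, abs_div, abs_of_pos hr']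
      exact div_le_div_of_nonneg_right (D1 x y) hr'.le
    calc (δ : ℝ) * |max 0 (min 1 (D x / r)) - max 0 (min 1 (D y / r))|
        ≤ δ * (‖x - y‖ / r) := mul_le_mul_of_nonneg_left (h1.trans h2) hδ'.le
      _ = (δ : ℝ) / r * ‖x - y‖ := by ring
  refine ⟨h, hadm, fun q hq => hneg _ (D4 q hq), hlip, ?_⟩
  -- the integral
  have hcs : HasCompactSupport h := by
    refine HasCompactSupport.of_support_subset_isCompact
      (K := (EuclideanSpace.equiv (Fin d) ℝ).toHomeomorph ⁻¹'
        (Set.Icc (fun _ => -(1 / 2 : ℝ)) (fun _ => (1 / 2 : ℝ))))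
      ((EuclideanSpace.equiv (Fin d) ℝ).toHomeomorph.isCompact_preimage.2 isCompact_Icc) ?_
    intro x hx
    have h1 : ∀ i, |x i| ≤ 1 / 2 := by
      intro i
      by_contra hi
      exact hx (hsupp x ⟨i, not_le.1 hi⟩)
    exact ⟨fun i => (abs_le.1 (h1 i)).1, fun i => (abs_le.1 (h1 i)).2⟩
  have hint : Integrable h := hc.integrable_of_hasCompactSupport hcs
  let U : (Fin d → ℚ) → Set (E d) := fun q =>
    {x | N (x - pt q) < r} ∪ {x | N (x - -pt q) < r}
  let G : Set (E d) := {x | N x ≤ 1 / 4} \ ⋃ q ∈ F, U q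
  have hUm : ∀ q, MeasurableSet (U q) := by
    intro q
    refine MeasurableSet.union ?_ ?_
    · exact (isOpen_lt (N_cont.comp (continuous_id.sub continuous_const))
        continuous_const).measurableSet
    · exact (isOpen_lt (N_cont.comp (continuous_id.sub continuous_const))
        continuous_const).measurableSet
  have hGm : MeasurableSet G :=
    (isClosed_le N_cont continuous_const).measurableSet.diff
      (Finset.measurableSet_biUnion F fun q _ => hUm q)
  have hGh : ∀ x ∈ G, h x = δ := by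
    rintro x ⟨hx1, hx2⟩
    have h1 : (r : ℝ) ≤ D x := by
      apply D6 r x hr4.le hx1
      intro q hq
      constructor
      · by_contra hcon
        exact hx2 (Set.mem_biUnion hq (Or.inl (not_le.1 hcon)))
      · by_contra hcon
        refine hx2 (Set.mem_biUnion hq (Or.inr ?_))
        change N (x - -pt q) < r
        rw [sub_neg_eq_add]
        exact not_le.1 hcon
    have h2 : 1 ≤ D x / r := by
      rw [le_div_iff₀ hr', one_mul]
      exact h1
    rw [hh, min_eq_left h2, max_eq_right zero_le_one, mul_one]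
  have hvol : ENNReal.ofReal ((1 / 2) ^ d) ≤
      volume G + ENNReal.ofReal (F.card * (2 * (2 * r) ^ d)) := by
    have h1 : {x : E d | N x ≤ 1 / 4} ⊆ G ∪ ⋃ q ∈ F, U q := by
      intro x hx
      by_cases h2 : x ∈ ⋃ q ∈ F, U q
      · exact Or.inr h2
      · exact Or.inl ⟨hx, h2⟩
    have h3 : ∀ q ∈ F, volume (U q) ≤ ENNReal.ofReal (2 * (2 * r) ^ d) := by
      intro q _
      refine (measure_union_le _ _).trans ?_
      rw [vol_cube hr', vol_cube hr', ← ENNReal.ofReal_add (by positivity) (by positivity), ← two_mul]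
    calc ENNReal.ofReal ((1 / 2) ^ d) = volume {x : E d | N x ≤ 1 / 4} := vol_box.symm
      _ ≤ volume (G ∪ ⋃ q ∈ F, U q) := measure_mono h1
      _ ≤ volume G + volume (⋃ q ∈ F, U q) := measure_union_le _ _
      _ ≤ volume G + ∑ q ∈ F, volume (U q) := by
          gcongr
          exact measure_biUnion_finset_le F U
      _ ≤ volume G + ∑ q ∈ F, ENNReal.ofReal (2 * (2 * r) ^ d) := by
          gcongr with q hq
          exact h3 q hq
      _ = volume G + ENNReal.ofReal (F.card * (2 * (2 * r) ^ d)) := by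
          rw [Finset.sum_const, nsmul_eq_mul, ENNReal.ofReal_mul hF0, ENNReal.ofReal_natCast]
  have hGfin : volume G ≠ ⊤ := by
    refine ne_top_of_le_ne_top (?_ : volume {x : E d | N x ≤ 1 / 4} ≠ ⊤)
      (measure_mono Set.sdiff_subset)
    rw [vol_box]
    exact ENNReal.ofReal_ne_top
  have hG : 1 / 4 ^ (d + 1) ≤ (volume G).toReal := by
    have h1 := ENNReal.toReal_mono (ENNReal.add_ne_top.2 ⟨hGfin, ENNReal.ofReal_ne_top⟩) hvol
    rw [ENNReal.toReal_add hGfin ENNReal.ofReal_ne_top, ENNReal.toReal_ofReal (by positivity),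
      ENNReal.toReal_ofReal (by positivity)] at h1
    have h2 : (F.card : ℝ) * (2 * (2 * r) ^ d) ≤ 2 * 2 ^ d * (1 / 4 ^ (d + 1)) := by
      have e1 : (F.card : ℝ) * (2 * (2 * (r : ℝ)) ^ d) =
          2 * 2 ^ d * ((r : ℝ) ^ d * F.card) := by
        rw [mul_pow]
        ring
      rw [e1]
      apply mul_le_mul_of_nonneg_left _ (by positivity)
      nlinarith
    have h3 : (2 : ℝ) * 2 ^ d * (1 / 4 ^ (d + 1)) = (1 / 2) ^ d / 2 := by
      have e2 : (4 : ℝ) ^ (d + 1) = 4 * (2 ^ d * 2 ^ d) := by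
        rw [pow_succ, ← mul_pow]
        norm_num
        ring
      rw [e2, div_pow, one_pow]
      have : (0 : ℝ) < 2 ^ d := by positivity
      field_simp
      norm_num
    have h4 : (1 : ℝ) / 4 ^ (d + 1) ≤ (1 / 2) ^ d / 2 := by
      rw [← h3]
      have e3 : (1 : ℝ) ≤ 2 * 2 ^ d := by
        have : (1 : ℝ) ≤ 2 ^ d := one_le_pow₀ (by norm_num)
        linarith
      have e4 : (0 : ℝ) < 1 / 4 ^ (d + 1) := by positivity
      nlinarith
    linarith
  calc 1 / 4 ^ (d + 1) * (δ : ℝ) ≤ (volume G).toReal * δ :=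
        mul_le_mul_of_nonneg_right hG hδ'.le
    _ = ∫ x in G, (δ : ℝ) := by
        rw [setIntegral_const, smul_eq_mul]
        rfl
    _ = ∫ x in G, h x := (setIntegral_congr_fun hGm fun x hx => hGh x hx).symm
    _ ≤ ∫ x, h x := setIntegral_le_integral hint (Eventually.of_forall h0)

end Pool.Agent.Y572.GP
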