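import Pool.Agent.Y572.GP.Defs

set_option autoImplicit false

/-!
# The connective constant is at most the temperedness constant
-/

namespace Pool.Agent.Y572.GP

open MeasureTheory

/-- the cube of side one -/
def cube (d : ℕ) : Set (E d) := {x | ∀ i, |x i| ≤ 1 / 2}

lemma cube_eq (d : ℕ) : cube d = (fun x : E d => WithLp.ofLp x) ⁻¹'
    (Set.Icc (fun _ => (-(1 / 2) : ℝ)) (fun _ => (1 / 2 : ℝ))) := by
  ext x
  simp only [cube, Set.mem_ofPred_eq, Set.mem_preimage, Set.mem_Icc, Pi.le_def, abs_le]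
  exact ⟨fun h => ⟨fun i => (h i).1, fun i => (h i).2⟩, fun h i => ⟨h.1 i, h.2 i⟩⟩

lemma volume_cube (d : ℕ) : volume (cube d) = 1 := by
  rw [cube_eq, (PiLp.volume_preserving_ofLp (Fin d)).measure_preimage
    measurableSet_Icc.nullMeasurableSet, Real.volume_Icc_pi]
  norm_num

lemma isClosed_cube (d : ℕ) : IsClosed (cube d) := by
  have : cube d = ⋂ i, {x : E d | |x i| ≤ 1 / 2} := by ext x; simp [cube]
  rw [this]
  exact isClosed_iInter fun i => isClosed_le (by fun_prop) continuous_const

lemma measurableSet_cube (d : ℕ) : MeasurableSet (cube d) := (isClosed_cube d).measurableSet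

/-- integrals of functions supported by the cube -/
lemma integral_le_of_cube {d : ℕ} {u : E d → ℝ} {c : ℝ} (h0 : ∀ x, 0 ≤ u x) (hc : ∀ x, u x ≤ c)
    (hs : ∀ x, (∃ i, 1 / 2 < |x i|) → u x = 0) : ∫ x, u x ≤ c := by
  have h1 : ∫ x, u x = ∫ x in cube d, u x := by
    symm
    apply setIntegral_eq_integral_of_forall_compl_eq_zero
    intro x hx
    apply hs
    simp only [cube, Set.mem_ofPred_eq, not_forall, not_le] at hx
    exact hx
  rw [h1]
  have h2 : ‖∫ x in cube d, u x‖ ≤ c * (volume (cube d)).toReal := by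
    apply norm_setIntegral_le_of_norm_le_const
    · rw [volume_cube]; exact ENNReal.one_lt_top
    · intro x _
      rw [Real.norm_eq_abs, abs_of_nonneg (h0 x)]; exact hc x
  rw [volume_cube] at h2
  simp only [ENNReal.toReal_one, mul_one, Real.norm_eq_abs] at h2
  exact (le_abs_self _).trans h2

theorem t_DEL : S_DEL := by
  intro d φ c hcont hnn hsupp hc
  have hu0 : ∀ x, 0 ≤ 1 - Real.exp (-φ x) := fun x => by
    have : Real.exp (-φ x) ≤ 1 := Real.exp_le_one_iff.2 (by linarith [hnn x])
    linarith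
  have hus : ∀ x : E d, (∃ i, 1 / 2 < |x i|) → 1 - Real.exp (-φ x) = 0 := fun x hx => by
    rw [hsupp x hx]; simp
  constructor
  · have hV : ∀ k, 0 ≤ V φ k := by
      intro k
      unfold V
      refine integral_nonneg fun v => Finset.prod_nonneg fun j _ => ?_
      exact mul_nonneg (Real.exp_pos _).le (hu0 _)
    have hb : BddBelow (Set.range fun k : ℕ => (V φ (k + 1)) ^ (1 / ((k : ℝ) + 1))) :=
      ⟨0, by rintro _ ⟨k, rfl⟩; exact Real.rpow_nonneg (hV _) _⟩
    have h1 : conn φ ≤ (V φ (0 + 1)) ^ (1 / (((0 : ℕ) : ℝ) + 1)) := ciInf_le hb 0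
    have h2 : (V φ (0 + 1)) ^ (1 / (((0 : ℕ) : ℝ) + 1)) = V φ 1 := by norm_num
    rw [h2] at h1
    refine h1.trans ?_
    have h3 : V φ 1 = ∫ w : E d, (1 - Real.exp (-φ w)) := by
      unfold V
      rw [← (volume_preserving_funUnique (Fin 1) (E d)).integral_comp
        (MeasurableEquiv.funUnique (Fin 1) (E d)).measurableEmbedding]
      refine integral_congr_ae (Filter.Eventually.of_forall fun v => ?_)
      simp [path, MeasurableEquiv.funUnique]
    rw [h3]
    exact integral_le_of_cube hu0 hc hus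
  · unfold temp
    refine integral_le_of_cube (fun x => abs_nonneg _) (fun x => ?_) (fun x hx => ?_)
    · rw [abs_of_nonneg (hu0 x)]; exact hc x
    · rw [hus x hx]; simp

end Pool.Agent.Y572.GP
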