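import Pool.Agent.Y572.GP.Defs

set_option autoImplicit false

/-!
# The partition function decreases strictly (helper917)
-/

namespace Pool.Agent.Y572.GP

open MeasureTheory

namespace LOW

theorem box_eq (d n : ℕ) : box d n =
    (WithLp.ofLp : E d → (Fin d → ℝ)) ⁻¹' (Set.Icc (fun _ => -(n : ℝ)) (fun _ => (n : ℝ))) := by
  ext x
  simp only [box, Set.mem_setOf_eq, Set.mem_preimage, Set.mem_Icc, Pi.le_def, abs_le]
  exact forall_and

/-- the small cube -/
def cube (d : ℕ) : Set (E d) := {x | ∀ i, |x i| ≤ 1 / 2}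

theorem cube_eq (d : ℕ) : cube d =
    (WithLp.ofLp : E d → (Fin d → ℝ)) ⁻¹' (Set.Icc (fun _ => -(1 / 2 : ℝ)) (fun _ => (1 / 2 : ℝ))) := by
  ext x
  simp only [cube, Set.mem_setOf_eq, Set.mem_preimage, Set.mem_Icc, Pi.le_def, abs_le]
  exact forall_and

theorem cpt_pre {d : ℕ} (a b : Fin d → ℝ) :
    IsCompact ((WithLp.ofLp : E d → (Fin d → ℝ)) ⁻¹' (Set.Icc a b)) := by
  have h : IsCompact (Set.Icc a b) := isCompact_Icc
  have h2 := (PiLp.homeomorph 2 (fun _ : Fin d => ℝ)).isCompact_preimage.2 h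
  exact h2

theorem box_cpt (d n : ℕ) : IsCompact (box d n) := by
  rw [box_eq]; exact cpt_pre _ _

theorem cube_cpt (d : ℕ) : IsCompact (cube d) := by
  rw [cube_eq]; exact cpt_pre _ _

theorem vol_cube (d : ℕ) : volume (cube d) = 1 := by
  rw [cube_eq, (PiLp.volume_preserving_ofLp (Fin d)).measure_preimage
    measurableSet_Icc.nullMeasurableSet, Real.volume_Icc_pi]
  norm_num

theorem W_cont {d : ℕ} {f : E d → ℝ} (hf : Continuous f) (k : ℕ) :
    Continuous (fun x : Fin k → E d => W f x) := by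
  unfold W
  refine continuous_finsetProd _ fun i _ => continuous_finsetProd _ fun j _ => ?_
  split_ifs
  · exact continuous_const.sub (hf.comp ((continuous_apply i).sub (continuous_apply j)))
  · exact continuous_const

theorem W_nonneg {d : ℕ} {f : E d → ℝ} (hf : Adm (1 / 2) f) {k : ℕ} (x : Fin k → E d) :
    0 ≤ W f x := by
  unfold W
  refine Finset.prod_nonneg fun i _ => Finset.prod_nonneg fun j _ => ?_
  split_ifs
  · linarith [hf.le (x i - x j)]
  · norm_num

theorem W_le {d : ℕ} {f g : E d → ℝ} (hg : Adm (1 / 2) g) (h : ∀ x, f x ≤ g x)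
    {k : ℕ} (x : Fin k → E d) : W g x ≤ W f x := by
  unfold W
  refine Finset.prod_le_prod (fun i _ => Finset.prod_nonneg fun j _ => ?_) fun i _ =>
    Finset.prod_le_prod (fun j _ => ?_) fun j _ => ?_
  · split_ifs
    · linarith [hg.le (x i - x j)]
    · norm_num
  · split_ifs
    · linarith [hg.le (x i - x j)]
    · norm_num
  · split_ifs
    · linarith [h (x i - x j)]
    · exact le_rfl

theorem W_le_one {d : ℕ} {f : E d → ℝ} (hf : Adm (1 / 2) f) {k : ℕ} (x : Fin k → E d) :
    W f x ≤ 1 := by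
  unfold W
  refine Finset.prod_le_one (fun i _ => Finset.prod_nonneg fun j _ => ?_) fun i _ =>
    Finset.prod_le_one (fun j _ => ?_) fun j _ => ?_
  · split_ifs
    · linarith [hf.le (x i - x j)]
    · norm_num
  · split_ifs
    · linarith [hf.le (x i - x j)]
    · norm_num
  · split_ifs
    · linarith [hf.nonneg (x i - x j)]
    · exact le_rfl

theorem pi_cpt (d n k : ℕ) : IsCompact (Set.univ.pi (fun _ : Fin k => box d n)) :=
  isCompact_univ_pi fun _ => box_cpt d n

theorem W_int {d : ℕ} {f : E d → ℝ} (hf : Adm (1 / 2) f) (n k : ℕ) :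
    IntegrableOn (fun x : Fin k → E d => W f x) (Set.univ.pi (fun _ : Fin k => box d n)) :=
  (W_cont hf.cont k).continuousOn.integrableOn_compact (pi_cpt d n k)

theorem term_le {d : ℕ} {f : E d → ℝ} (hf : Adm (1 / 2) f) (n k : ℕ) :
    ∫ x in Set.univ.pi (fun _ : Fin k => box d n), W f x ≤ (volume.real (box d n)) ^ k := by
  have h1 : ∫ x in Set.univ.pi (fun _ : Fin k => box d n), W f x ≤
      ∫ x in Set.univ.pi (fun _ : Fin k => box d n), (1 : ℝ) := by
    refine setIntegral_mono_on (W_int hf n k)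
      ((continuous_const).continuousOn.integrableOn_compact (pi_cpt d n k))
      (pi_cpt d n k).measurableSet fun x _ => W_le_one hf x
  refine h1.trans (le_of_eq ?_)
  rw [setIntegral_const, smul_eq_mul, mul_one, measureReal_def, volume_pi_pi, Finset.prod_const,
    Finset.card_univ, Fintype.card_fin, ENNReal.toReal_pow, measureReal_def]

theorem summ {d : ℕ} {f : E d → ℝ} (hf : Adm (1 / 2) f) (n : ℕ) {lam : ℝ} (hl : 0 ≤ lam) :
    Summable (fun k : ℕ => lam ^ (k + 1) / ((k + 1).factorial : ℝ) *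
      ∫ x in Set.univ.pi (fun _ : Fin (k + 1) => box d n), W f x) := by
  have h0 := (summable_nat_add_iff 1).2
    (Real.summable_pow_div_factorial (lam * volume.real (box d n)))
  refine Summable.of_nonneg_of_le (fun k => ?_) (fun k => ?_) h0
  · exact mul_nonneg (by positivity) (setIntegral_nonneg (pi_cpt d n (k + 1)).measurableSet
      fun x _ => W_nonneg hf x)
  · have h1 := mul_le_mul_of_nonneg_left (term_le hf n (k + 1))
      (show 0 ≤ lam ^ (k + 1) / ((k + 1).factorial : ℝ) by positivity)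
    refine h1.trans (le_of_eq ?_)
    rw [mul_pow]; ring

theorem W_two {d : ℕ} (f : E d → ℝ) (x : Fin 2 → E d) : W f x = 1 - f (x 0 - x 1) := by
  simp [W, Fin.prod_univ_two]

theorem key {d n : ℕ} (hn : 1 ≤ n) {u : E d → ℝ} (hu : Continuous u) (h0 : ∀ x, 0 ≤ u x)
    (hs : ∀ x, (∃ i, 1 / 2 < |x i|) → u x = 0) :
    ∫ x, u x ≤ ∫ x in Set.univ.pi (fun _ : Fin 2 => box d n), u (x 0 - x 1) := by
  have hn' : (1 : ℝ) ≤ n := by exact_mod_cast hn
  have e1 : ∫ x in Set.univ.pi (fun _ : Fin 2 => box d n), u (x 0 - x 1) =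
      ∫ p in (box d n) ×ˢ (box d n), u (p.1 - p.2) := by
    have h := (volume_preserving_finTwoArrow (E d)).setIntegral_preimage_emb
      (MeasurableEquiv.finTwoArrow (α := E d)).measurableEmbedding
      (fun p : E d × E d => u (p.1 - p.2)) ((box d n) ×ˢ (box d n))
    have hset : (MeasurableEquiv.finTwoArrow (α := E d)) ⁻¹' ((box d n) ×ˢ (box d n)) =
        Set.univ.pi (fun _ : Fin 2 => box d n) := by
      ext x
      simp [MeasurableEquiv.finTwoArrow, Set.mem_pi, Fin.forall_fin_two]
    rw [hset] at h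
    exact h
  rw [e1]
  have hc : Continuous (fun p : E d × E d => u (p.1 - p.2)) := by fun_prop
  have hQL : cube d ⊆ box d n := by
    intro x hx i
    exact (hx i).trans (by linarith)
  have hI : IntegrableOn (fun p : E d × E d => u (p.1 - p.2)) ((box d n) ×ˢ (box d n)) :=
    hc.continuousOn.integrableOn_compact ((box_cpt d n).prod (box_cpt d n))
  have hIQ : IntegrableOn (fun p : E d × E d => u (p.1 - p.2)) ((cube d) ×ˢ (box d n)) :=
    hI.mono_set (Set.prod_mono hQL le_rfl)
  have e2 : ∫ p in (cube d) ×ˢ (box d n), u (p.1 - p.2) ≤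
      ∫ p in (box d n) ×ˢ (box d n), u (p.1 - p.2) := by
    refine setIntegral_mono_set hI ?_ ?_
    · exact Filter.Eventually.of_forall fun p => h0 _
    · exact (Set.prod_mono hQL le_rfl).eventuallyLE
  refine le_trans (le_of_eq ?_) e2
  have e3 : ∫ p in (cube d) ×ˢ (box d n), u (p.1 - p.2) =
      ∫ a in cube d, ∫ b in box d n, u (a - b) := by
    rw [Measure.volume_eq_prod] at hIQ ⊢
    exact setIntegral_prod _ hIQ
  rw [e3]
  have e4 : ∫ a in cube d, ∫ b in box d n, u (a - b) = ∫ a in cube d, ∫ x, u x := by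
    refine setIntegral_congr_fun (cube_cpt d).measurableSet fun a ha => ?_
    have h5 : ∫ b in box d n, u (a - b) = ∫ b, u (a - b) := by
      refine setIntegral_eq_integral_of_forall_compl_eq_zero fun b hb => ?_
      apply hs
      by_contra hcon
      push Not at hcon
      apply hb
      intro i
      have h6 : |a i - b i| ≤ 1 / 2 := by
        have := hcon i
        simpa using this
      have h7 : |a i| ≤ 1 / 2 := ha i
      have h8 : |b i| ≤ |a i| + |a i - b i| := by
        have := abs_sub_abs_le_abs_sub (b i) (a i)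
        rw [abs_sub_comm (b i) (a i)] at this
        linarith
      linarith
    show ∫ b in box d n, u (a - b) = ∫ x, u x
    rw [h5]
    exact integral_sub_left_eq_self u volume a
  rw [e4, setIntegral_const, measureReal_def, vol_cube]
  simp

end LOW

open LOW in
theorem t_LOW : S_LOW := by
  intro d n lam hn hl f g hf hg hfg
  have hsf := summ hf n hl
  have hsg := summ hg n hl
  unfold Zf
  have e : (1 + ∑' k : ℕ, lam ^ (k + 1) / ((k + 1).factorial : ℝ) *
      ∫ x in Set.univ.pi (fun _ : Fin (k + 1) => box d n), W f x) -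
      (1 + ∑' k : ℕ, lam ^ (k + 1) / ((k + 1).factorial : ℝ) *
      ∫ x in Set.univ.pi (fun _ : Fin (k + 1) => box d n), W g x) =
      ∑' k : ℕ, (lam ^ (k + 1) / ((k + 1).factorial : ℝ) *
      (∫ x in Set.univ.pi (fun _ : Fin (k + 1) => box d n), W f x) -
      lam ^ (k + 1) / ((k + 1).factorial : ℝ) *
      (∫ x in Set.univ.pi (fun _ : Fin (k + 1) => box d n), W g x)) := by
    rw [hsf.tsum_sub hsg]; ring
  rw [e]
  refine le_trans ?_ ((hsf.sub hsg).le_tsum 1 fun k _ => ?_)
  · show lam ^ 2 / 2 * ∫ x, (g x - f x) ≤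
      lam ^ (1 + 1) / (((1 + 1).factorial : ℕ) : ℝ) *
      (∫ x in Set.univ.pi (fun _ : Fin (1 + 1) => box d n), W f x) -
      lam ^ (1 + 1) / (((1 + 1).factorial : ℕ) : ℝ) *
      (∫ x in Set.univ.pi (fun _ : Fin (1 + 1) => box d n), W g x)
    rw [← mul_sub, ← integral_sub (W_int hf n 2) (W_int hg n 2)]
    have h2 : (((1 + 1).factorial : ℕ) : ℝ) = 2 := by norm_num [Nat.factorial]
    rw [h2]
    refine mul_le_mul_of_nonneg_left ?_ (by positivity)
    have hk := key (n := n) hn (hg.cont.sub hf.cont) (fun x => sub_nonneg.2 (hfg x))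
      (fun x hx => by
        show g x - f x = 0
        rw [hg.supp x hx, hf.supp x hx, sub_zero])
    refine hk.trans (le_of_eq ?_)
    refine integral_congr_ae (Filter.Eventually.of_forall fun x => ?_)
    show g (x 0 - x 1) - f (x 0 - x 1) = W f x - W g x
    rw [W_two, W_two]; ring
  · show 0 ≤ lam ^ (k + 1) / ((k + 1).factorial : ℝ) *
      (∫ x in Set.univ.pi (fun _ : Fin (k + 1) => box d n), W f x) -
      lam ^ (k + 1) / ((k + 1).factorial : ℝ) *
      (∫ x in Set.univ.pi (fun _ : Fin (k + 1) => box d n), W g x)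
    rw [← mul_sub]
    refine mul_nonneg (by positivity) (sub_nonneg.2 ?_)
    exact setIntegral_mono_on (W_int hg n (k + 1)) (W_int hf n (k + 1))
      (pi_cpt d n (k + 1)).measurableSet fun x _ => W_le hg hfg x

end Pool.Agent.Y572.GP
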