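import Pool.Agent.Y572.GP.Force

set_option autoImplicit false

/-!
# Gibbs point processes: assembly
-/

namespace Pool.Agent.Y572.GP

open MeasureTheory

variable {d : ℕ}

/-- `exp (-H)` is the product of the `1 - f` -/
lemma exp_energy {g : E d → ℝ} {c : ℝ} (hg : Adm c g) (hc : c ≤ 1 / 2) {k : ℕ}
    (x : Fin k → E d) :
    Real.exp (-energy (fun y => -Real.log (1 - g y)) x) = W g x := by
  have h1 : ∀ y, Real.exp (Real.log (1 - g y)) = 1 - g y := fun y =>
    Real.exp_log (by linarith [hg.le y])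
  have h2 : -energy (fun y => -Real.log (1 - g y)) x =
      ∑ i : Fin k, ∑ j : Fin k, if i < j then Real.log (1 - g (x i - x j)) else 0 := by
    unfold energy
    rw [← Finset.sum_neg_distrib]
    refine Finset.sum_congr rfl fun i _ => ?_
    rw [← Finset.sum_neg_distrib]
    refine Finset.sum_congr rfl fun j _ => ?_
    split_ifs <;> simp
  rw [h2, Real.exp_sum]
  unfold W
  refine Finset.prod_congr rfl fun i _ => ?_
  rw [Real.exp_sum]
  refine Finset.prod_congr rfl fun j _ => ?_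
  split_ifs
  · exact h1 _
  · exact Real.exp_zero

lemma Z_eq {g : E d → ℝ} {c : ℝ} (hg : Adm c g) (hc : c ≤ 1 / 2) (Λ : Set (E d)) (lam : ℝ) :
    Z (fun y => -Real.log (1 - g y)) Λ lam = Zf g Λ lam := by
  unfold Z Zf
  congr 1
  refine tsum_congr fun k => ?_
  congr 1
  refine integral_congr_ae (Filter.Eventually.of_forall fun x => ?_)
  exact exp_energy hg hc x

/-- the algorithm `A` with the oracle `O` computes `Z` from the input `n` up to any relative error:
for every rational `ε` in `(0, 1)` it stops after finitely many questions with an output `z`,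
`(1 - ε) Z ≤ z ≤ (1 + ε) Z` -/
def Approximates (A : Alg d) (O : (Fin d → ℚ) → ℕ → ℚ) (n : ℕ) (Zv : ℝ) : Prop :=
  ∀ ε : ℚ, 0 < ε → ε < 1 → ∃ (T : ℕ) (z : ℚ), run (A n ε) O T [] = some z ∧
    (1 - (ε : ℝ)) * Zv ≤ z ∧ (z : ℝ) ≤ (1 + (ε : ℝ)) * Zv

/-- the main theorem from its parts -/
theorem main_of (hLIP : S_LIP) (hLOW : S_LOW) (hBUMP : S_BUMP) (hDEL : S_DEL) (hd : 1 ≤ d)
    (L : ℝ) (𝒜 : Set (Alg d)) (h𝒜 : 𝒜.Countable) :
    ∃ φ : E d → ℝ, Continuous φ ∧ (∀ x, φ (-x) = φ x) ∧ (∀ x, 0 ≤ φ x) ∧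
      (∀ x, (d : ℝ) < ‖x‖ → φ x = 0) ∧ L * conn φ < Real.exp 1 ∧ L * temp φ < Real.exp 1 ∧
      ∃ O : (Fin d → ℚ) → ℕ → ℚ, (∀ q m, (O q m : ℝ) = Real.exp (-φ (pt q))) ∧
        ∀ A ∈ 𝒜, ∀ n : ℕ, 1 ≤ n → ∀ lam : ℚ, 0 < lam →
          ¬ Approximates A O n (Z φ (box d n) lam) := by
  classical
  set c : ℝ := min (1 / 2) (1 / (|L| + 1)) with hcdef
  have hLp : 0 < |L| + 1 := by positivity
  have hc0 : 0 < c := by positivity
  have hc : c ≤ 1 / 2 := min_le_left _ _
  have hcL : ∀ t : ℝ, t ≤ c → 0 ≤ t → L * t < Real.exp 1 := by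
    intro t ht ht0
    have h1 : c ≤ 1 / (|L| + 1) := min_le_right _ _
    have h2 : L * t ≤ |L| * (1 / (|L| + 1)) := by
      calc L * t ≤ |L| * t := mul_le_mul_of_nonneg_right (le_abs_self L) ht0
        _ ≤ |L| * (1 / (|L| + 1)) := mul_le_mul_of_nonneg_left (ht.trans h1) (abs_nonneg L)
    have h3 : |L| * (1 / (|L| + 1)) ≤ 1 := by
      rw [mul_one_div, div_le_one hLp]; linarith
    have h4 : (1 : ℝ) < Real.exp 1 := by
      have := Real.add_one_lt_exp (x := 1) (by norm_num)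
      linarith
    linarith
  -- enumerate the requirements
  obtain ⟨B, hB⟩ : ∃ B : ℕ → Alg d, ∀ A ∈ 𝒜, ∃ i, B i = A := by
    rcases 𝒜.eq_empty_or_nonempty with h | h
    · exact ⟨fun _ => fun _ _ _ => Act.out 0, fun A hA => by rw [h] at hA; exact absurd hA (by simp)⟩
    · obtain ⟨B, hB⟩ := h𝒜.exists_eq_range h
      exact ⟨B, fun A hA => by rw [hB] at hA; exact hA⟩
  obtain ⟨e, he⟩ := exists_surjective_nat (ℕ × ℕ × {r : ℚ // 0 < r})
  obtain ⟨g, hgA, hgF⟩ := force (d := d) hLIP hLOW hBUMP hd hc0 hc (fun i => B (e i).1)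
    (fun i => (e i).2.1 + 1) (fun i => by omega) (fun i => (((e i).2.2.1 : ℚ) : ℝ))
    (fun i => by have := (e i).2.2.2; exact_mod_cast this)
  set φ : E d → ℝ := fun y => -Real.log (1 - g y) with hφ
  have hpos : ∀ x, 0 < 1 - g x := fun x => by linarith [hgA.le x]
  have hexp : ∀ x, Real.exp (-φ x) = 1 - g x := fun x => by
    simp only [hφ, neg_neg]; exact Real.exp_log (hpos x)
  have hcont : Continuous φ :=
    ((continuous_const.sub hgA.cont).log (fun x => (hpos x).ne')).neg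
  have hnn : ∀ x, 0 ≤ φ x := fun x => by
    have := Real.log_nonpos (hpos x).le (by linarith [hgA.nonneg x])
    simp only [hφ]; linarith
  have hsupp : ∀ x, (∃ i, 1 / 2 < |x i|) → φ x = 0 := fun x hx => by
    simp only [hφ]; rw [hgA.supp x hx]; simp
  obtain ⟨hD1, hD2⟩ := hDEL d φ c hcont hnn hsupp (fun x => by rw [hexp]; linarith [hgA.le x])
  have hconn0 : 0 ≤ conn φ := by
    unfold conn
    refine Real.iInf_nonneg fun k => Real.rpow_nonneg ?_ _
    unfold V
    refine integral_nonneg fun v => Finset.prod_nonneg fun j _ => ?_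
    refine mul_nonneg (Real.exp_pos _).le ?_
    rw [hexp]; linarith [hgA.nonneg (path v j - path v (j - 1))]
  have htemp0 : 0 ≤ temp φ := integral_nonneg fun w => abs_nonneg _
  refine ⟨φ, hcont, fun x => ?_, hnn, fun x hx => ?_, hcL _ hD1 hconn0, hcL _ hD2 htemp0,
    orc g, fun q m => ?_, fun A hA n hn lam hlam happ => ?_⟩
  · simp only [hφ]; rw [hgA.even]
  · apply hsupp
    by_contra hcon
    push Not at hcon
    have h1 : ‖x‖ ^ 2 ≤ (d : ℝ) ^ 2 := by
      rw [EuclideanSpace.norm_sq_eq]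
      calc ∑ i, ‖x i‖ ^ 2 ≤ ∑ _i : Fin d, (1 : ℝ) := by
            refine Finset.sum_le_sum fun i _ => ?_
            rw [Real.norm_eq_abs]
            have := hcon i
            have h0 := abs_nonneg (x i)
            nlinarith
        _ = d := by simp
        _ ≤ (d : ℝ) ^ 2 := by
            have : (1 : ℝ) ≤ d := by exact_mod_cast hd
            nlinarith
    have h2 : ‖x‖ ≤ d := by
      have h3 : (0 : ℝ) ≤ d := by positivity
      exact le_of_sq_le_sq h1 h3
    linarith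
  · rw [orc_spec hgA, hexp]
  · obtain ⟨i0, hi0⟩ := hB A hA
    obtain ⟨i, hi⟩ := he (i0, n - 1, ⟨lam, hlam⟩)
    obtain ⟨ε, h1, h2, h3⟩ := hgF i
    rw [hi] at h3
    simp only at h3
    have hn' : n - 1 + 1 = n := by omega
    rw [hi0, hn'] at h3
    obtain ⟨T, z, h4, h5⟩ := happ ε h1 h2
    rw [hφ, Z_eq hgA hc] at h5
    exact h3 T z h4 h5

end Pool.Agent.Y572.GP
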