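import Mathlib

set_option autoImplicit false

/-!
# Gibbs point processes: definitions and statements of the parts

`f = 1 - exp (-φ)` is used instead of the potential `φ`.
-/

namespace Pool.Agent.Y572.GP

open MeasureTheory

/-- Euclidean space -/
abbrev E (d : ℕ) : Type := EuclideanSpace ℝ (Fin d)

/-- `H (x_1, ..., x_k)`, the sum of `φ (x_i - x_j)` over the pairs `i < j` -/
noncomputable def energy {d : ℕ} (φ : E d → ℝ) {k : ℕ} (x : Fin k → E d) : ℝ :=
  ∑ i : Fin k, ∑ j : Fin k, if i < j then φ (x i - x j) else 0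

/-- the box `Λ_n = [-n, n]^d` -/
def box (d n : ℕ) : Set (E d) := {x | ∀ i, |x i| ≤ (n : ℝ)}

/-- the partition function `Z_Λ(lam)` of the potential `φ` -/
noncomputable def Z {d : ℕ} (φ : E d → ℝ) (Λ : Set (E d)) (lam : ℝ) : ℝ :=
  1 + ∑' k : ℕ, lam ^ (k + 1) / ((k + 1).factorial : ℝ) *
    ∫ x in Set.univ.pi (fun _ : Fin (k + 1) => Λ), Real.exp (-energy φ x)

/-- the temperedness constant `C_φ` -/
noncomputable def temp {d : ℕ} (φ : E d → ℝ) : ℝ := ∫ w : E d, |1 - Real.exp (-φ w)|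

/-- the points `v_0 = 0, v_1, ..., v_k` -/
def path {d k : ℕ} (v : Fin k → E d) (i : ℕ) : E d :=
  if h : 1 ≤ i ∧ i ≤ k then v ⟨i - 1, by omega⟩ else 0

/-- the integrals `V_k` -/
noncomputable def V {d : ℕ} (φ : E d → ℝ) (k : ℕ) : ℝ :=
  ∫ v : Fin k → E d, ∏ j ∈ Finset.Icc 1 k,
    (Real.exp (-∑ i ∈ Finset.range (j - 1),
        if ‖path v j - path v i‖ < ‖path v i - path v (i + 1)‖ then φ (path v j - path v i)
        else 0) *
      (1 - Real.exp (-φ (path v j - path v (j - 1)))))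

/-- the potential-weighted connective constant, the infimum of `V_k ^ (1/k)` over `k ≥ 1` -/
noncomputable def conn {d : ℕ} (φ : E d → ℝ) : ℝ :=
  ⨅ k : ℕ, (V φ (k + 1)) ^ (1 / ((k : ℝ) + 1))

/-- a rational point as a point of Euclidean space -/
noncomputable def pt {d : ℕ} (q : Fin d → ℚ) : E d := WithLp.toLp 2 (fun i => ((q i : ℚ) : ℝ))

/-- what a deterministic algorithm does next: it asks the oracle for an approximation of
`exp (-φ q)` with error at most `2 ^ (-m)`, or it stops with the output `z` -/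
inductive Act (d : ℕ) : Type
  | ask (q : Fin d → ℚ) (m : ℕ) : Act d
  | out (z : ℚ) : Act d

/-- a deterministic algorithm with an oracle: on the input `n`, `ε` and after the answers received
so far, its next action -/
abbrev Alg (d : ℕ) : Type := ℕ → ℚ → List ℚ → Act d

/-- the output of the algorithm when at most `T` questions are asked (after the answers `as`) -/
def run {d : ℕ} (A : List ℚ → Act d) (O : (Fin d → ℚ) → ℕ → ℚ) : ℕ → List ℚ → Option ℚ
  | T, as =>
    match A as with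
    | Act.out z => some z
    | Act.ask q m =>
      match T with
      | 0 => none
      | T + 1 => run A O T (as ++ [O q m])

/-! ### the functions `f = 1 - exp (-φ)` -/

/-- the product of the `1 - f (x_i - x_j)` over the pairs `i < j` -/
noncomputable def W {d : ℕ} (f : E d → ℝ) {k : ℕ} (x : Fin k → E d) : ℝ :=
  ∏ i : Fin k, ∏ j : Fin k, if i < j then 1 - f (x i - x j) else 1

/-- the partition function in terms of `f` -/
noncomputable def Zf {d : ℕ} (f : E d → ℝ) (Λ : Set (E d)) (lam : ℝ) : ℝ :=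
  1 + ∑' k : ℕ, lam ^ (k + 1) / ((k + 1).factorial : ℝ) *
    ∫ x in Set.univ.pi (fun _ : Fin (k + 1) => Λ), W f x

/-- admissible functions: continuous, even, with values in `[0, c]`, zero outside of
`[-1/2, 1/2]^d`, with rational values at rational points -/
structure Adm {d : ℕ} (c : ℝ) (f : E d → ℝ) : Prop where
  cont : Continuous f
  even : ∀ x, f (-x) = f x
  nonneg : ∀ x, 0 ≤ f x
  le : ∀ x, f x ≤ c
  supp : ∀ x, (∃ i, 1 / 2 < |x i|) → f x = 0
  rat : ∀ q : Fin d → ℚ, ∃ r : ℚ, f (pt q) = r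

/-- LIP: the partition function is Lipschitz, and bounded -/
def S_LIP : Prop := ∀ (d n : ℕ) (lam : ℝ), 0 ≤ lam → ∃ K : ℝ, 0 < K ∧
  (∀ f g : E d → ℝ, Adm (1 / 2) f → Adm (1 / 2) g → ∀ δ : ℝ, (∀ x, |f x - g x| ≤ δ) →
    |Zf f (box d n) lam - Zf g (box d n) lam| ≤ K * δ) ∧
  ∀ f : E d → ℝ, Adm (1 / 2) f → 1 ≤ Zf f (box d n) lam ∧ Zf f (box d n) lam ≤ K

/-- LOW: the partition function decreases strictly -/
def S_LOW : Prop := ∀ (d n : ℕ) (lam : ℝ), 1 ≤ n → 0 ≤ lam → ∀ f g : E d → ℝ,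
  Adm (1 / 2) f → Adm (1 / 2) g → (∀ x, f x ≤ g x) →
  lam ^ 2 / 2 * ∫ x, (g x - f x) ≤ Zf f (box d n) lam - Zf g (box d n) lam

/-- BUMP: bumps that vanish at finitely many given rational points -/
def S_BUMP : Prop := ∀ d : ℕ, 1 ≤ d → ∃ c : ℝ, 0 < c ∧ ∀ (F : Finset (Fin d → ℚ)) (δ : ℚ), 0 < δ →
  ∃ h : E d → ℝ, Adm (δ : ℝ) h ∧ (∀ q ∈ F, h (pt q) = 0) ∧ c * δ ≤ ∫ x, h x

/-- DEL: the connective constant is at most the temperedness constant, which is small -/
def S_DEL : Prop := ∀ (d : ℕ) (φ : E d → ℝ) (c : ℝ), Continuous φ → (∀ x, 0 ≤ φ x) →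
  (∀ x, (∃ i, 1 / 2 < |x i|) → φ x = 0) → (∀ x, 1 - Real.exp (-φ x) ≤ c) →
  conn φ ≤ c ∧ temp φ ≤ c

end Pool.Agent.Y572.GP
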