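import Pool.Agent.Y572.GP.Defs

set_option autoImplicit false

/-!
# Gibbs point processes: the forcing argument
-/

namespace Pool.Agent.Y572.GP

open MeasureTheory

variable {d : ℕ}

/-- the rational number with a given value -/
noncomputable def toQ (y : ℝ) : ℚ := by
  classical exact if h : ∃ r : ℚ, (r : ℝ) = y then h.choose else 0

lemma toQ_spec {y : ℝ} (h : ∃ r : ℚ, (r : ℝ) = y) : (toQ y : ℝ) = y := by
  unfold toQ
  rw [dif_pos h]
  exact h.choose_spec

/-- the exact oracle of `f` -/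
noncomputable def orc (f : E d → ℝ) (q : Fin d → ℚ) (_m : ℕ) : ℚ := toQ (1 - f (pt q))

lemma orc_spec {c : ℝ} {f : E d → ℝ} (hf : Adm c f) (q : Fin d → ℚ) (m : ℕ) :
    (orc f q m : ℝ) = 1 - f (pt q) := by
  obtain ⟨r, hr⟩ := hf.rat q
  exact toQ_spec ⟨1 - r, by push_cast; rw [hr]⟩

lemma run_out (A : List ℚ → Act d) (O : (Fin d → ℚ) → ℕ → ℚ) (T : ℕ) (as : List ℚ) (z : ℚ)
    (h : A as = Act.out z) : run A O T as = some z := by
  rw [run.eq_1, h]

lemma run_ask0 (A : List ℚ → Act d) (O : (Fin d → ℚ) → ℕ → ℚ) (as : List ℚ) (q : Fin d → ℚ)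
    (m : ℕ) (h : A as = Act.ask q m) : run A O 0 as = none := by
  rw [run.eq_1, h]

lemma run_ask (A : List ℚ → Act d) (O : (Fin d → ℚ) → ℕ → ℚ) (T : ℕ) (as : List ℚ)
    (q : Fin d → ℚ) (m : ℕ) (h : A as = Act.ask q m) :
    run A O (T + 1) as = run A O T (as ++ [O q m]) := by
  rw [run.eq_1, h]

/-- an output depends on finitely many answers of the oracle -/
lemma run_local (A : List ℚ → Act d) (O : (Fin d → ℚ) → ℕ → ℚ) (T : ℕ) :
    ∀ (as : List ℚ) (z : ℚ), run A O T as = some z → ∃ G : Finset (Fin d → ℚ),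
      ∀ O' : (Fin d → ℚ) → ℕ → ℚ, (∀ q ∈ G, ∀ m, O' q m = O q m) → run A O' T as = some z := by
  induction T with
  | zero =>
    intro as z h
    cases hA : A as with
    | out w =>
      rw [run_out A O 0 as w hA] at h
      refine ⟨∅, fun O' _ => ?_⟩
      rw [run_out A O' 0 as w hA]; exact h
    | ask q m =>
      rw [run_ask0 A O as q m hA] at h
      exact absurd h (by simp)
  | succ T ih =>
    intro as z h
    cases hA : A as with
    | out w =>
      rw [run_out A O _ as w hA] at h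
      refine ⟨∅, fun O' _ => ?_⟩
      rw [run_out A O' _ as w hA]; exact h
    | ask q m =>
      rw [run_ask A O T as q m hA] at h
      obtain ⟨G, hG⟩ := ih _ _ h
      classical
      refine ⟨insert q G, fun O' hO' => ?_⟩
      rw [run_ask A O' T as q m hA, hO' q (Finset.mem_insert_self _ _) m]
      exact hG O' fun p hp m' => hO' p (Finset.mem_insert_of_mem hp) m'

/-- outputs are unique -/
lemma run_unique (A : List ℚ → Act d) (O : (Fin d → ℚ) → ℕ → ℚ) (T : ℕ) :
    ∀ (T' : ℕ) (as : List ℚ) (z z' : ℚ), run A O T as = some z → run A O T' as = some z' →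
      z = z' := by
  induction T with
  | zero =>
    intro T' as z z' h h'
    cases hA : A as with
    | out w =>
      rw [run_out A O _ as w hA] at h h'
      exact Option.some.inj (h.symm.trans h')
    | ask q m =>
      rw [run_ask0 A O as q m hA] at h
      exact absurd h (by simp)
  | succ T ih =>
    intro T' as z z' h h'
    cases hA : A as with
    | out w =>
      rw [run_out A O _ as w hA] at h h'
      exact Option.some.inj (h.symm.trans h')
    | ask q m =>
      cases T' with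
      | zero =>
        rw [run_ask0 A O as q m hA] at h'
        exact absurd h' (by simp)
      | succ T' =>
        rw [run_ask A O _ as q m hA] at h h'
        exact ih T' _ _ _ h h'

/-! ### conditions -/

/-- conditions of the forcing -/
structure St (d : ℕ) : Type where
  /-- the function -/
  f : E d → ℝ
  /-- the points where it is fixed -/
  F : Finset (Fin d → ℚ)
  /-- the room left -/
  η : ℝ

/-- valid conditions -/
def Ok (c : ℝ) (s : St d) : Prop := Adm (c - s.η) s.f ∧ 0 < s.η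

/-- the functions allowed by a condition -/
def Ext (c : ℝ) (s : St d) : Set (E d → ℝ) :=
  {g | Adm c g ∧ (∀ q ∈ s.F, g (pt q) = s.f (pt q)) ∧ ∀ x, s.f x ≤ g x ∧ g x ≤ s.f x + s.η}

/-- `s'` is stronger than `s` -/
def Sub (s' s : St d) : Prop :=
  s.F ⊆ s'.F ∧ (∀ q ∈ s.F, s'.f (pt q) = s.f (pt q)) ∧ (∀ x, s.f x ≤ s'.f x) ∧
    (∀ x, s'.f x + s'.η ≤ s.f x + s.η) ∧ s'.η ≤ s.η / 2

lemma Adm.mono {c c' : ℝ} {f : E d → ℝ} (h : Adm c f) (hc : c ≤ c') : Adm c' f :=
  ⟨h.cont, h.even, h.nonneg, fun x => (h.le x).trans hc, h.supp, h.rat⟩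

lemma Adm.add {c c' : ℝ} {f g : E d → ℝ} (hf : Adm c f) (hg : Adm c' g) :
    Adm (c + c') (fun x => f x + g x) := by
  refine ⟨hf.cont.add hg.cont, fun x => ?_, fun x => add_nonneg (hf.nonneg x) (hg.nonneg x),
    fun x => add_le_add (hf.le x) (hg.le x), fun x hx => ?_, fun q => ?_⟩
  · rw [hf.even, hg.even]
  · rw [hf.supp x hx, hg.supp x hx, add_zero]
  · obtain ⟨a, ha⟩ := hf.rat q
    obtain ⟨b, hb⟩ := hg.rat q
    exact ⟨a + b, by push_cast; rw [ha, hb]⟩

/-- the algorithm fails -/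
def Fails (lam : ℝ) (g : E d → ℝ) (A : Alg d) (n : ℕ) : Prop :=
  ∃ ε : ℚ, 0 < ε ∧ ε < 1 ∧ ∀ (T : ℕ) (z : ℚ), run (A n ε) (orc g) T [] = some z →
    ¬ ((1 - (ε : ℝ)) * Zf g (box d n) lam ≤ z ∧ (z : ℝ) ≤ (1 + (ε : ℝ)) * Zf g (box d n) lam)

lemma orc_congr {f g : E d → ℝ} {q : Fin d → ℚ} (h : f (pt q) = g (pt q)) (m : ℕ) :
    orc f q m = orc g q m := by
  unfold orc; rw [h]

/-- one step -/
theorem step (hLIP : S_LIP) (hLOW : S_LOW) (hBUMP : S_BUMP) (hd : 1 ≤ d) {c : ℝ}
    (hc : c ≤ 1 / 2) (s : St d) (hs : Ok c s) (A : Alg d) (n : ℕ) (hn : 1 ≤ n) (lam : ℝ)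
    (hlam : 0 < lam) (q0 : Fin d → ℚ) :
    ∃ s' : St d, Ok c s' ∧ Sub s' s ∧ q0 ∈ s'.F ∧ ∀ g ∈ Ext c s', Fails lam g A n := by
  classical
  obtain ⟨K, hK, hKL, hKB⟩ := hLIP d n lam hlam.le
  obtain ⟨c0, hc0, hb⟩ := hBUMP d hd
  obtain ⟨hsA, hη⟩ := hs
  obtain ⟨δ, hδ0, hδ1⟩ := exists_rat_btwn (show (0 : ℝ) < s.η / 4 by linarith)
  have hδ0' : (0 : ℚ) < δ := by exact_mod_cast hδ0
  set c1 : ℝ := lam ^ 2 / 2 * (c0 * δ) with hc1
  have hc1p : 0 < c1 := by positivity
  obtain ⟨ε, hε0, hε1⟩ := exists_rat_btwn (show (0 : ℝ) < min 1 (c1 / (8 * K)) by positivity)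
  have hε0' : (0 : ℚ) < ε := by exact_mod_cast hε0
  have hε1' : (ε : ℝ) < 1 := lt_of_lt_of_le hε1 (min_le_left _ _)
  have hε1q : ε < 1 := by exact_mod_cast hε1'
  have hεK : (ε : ℝ) * K ≤ c1 / 8 := by
    have h1 : (ε : ℝ) ≤ c1 / (8 * K) := (lt_of_lt_of_le hε1 (min_le_right _ _)).le
    calc (ε : ℝ) * K ≤ c1 / (8 * K) * K := mul_le_mul_of_nonneg_right h1 hK.le
      _ = c1 / 8 := by field_simp
  have hle : ∀ x, s.f x ≤ c - s.η := hsA.le
  by_cases hcase : ∃ g : E d → ℝ, Adm c g ∧ (∀ q ∈ s.F, g (pt q) = s.f (pt q)) ∧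
      (∀ x, s.f x ≤ g x ∧ g x ≤ s.f x + s.η / 4) ∧
      ∃ (T : ℕ) (z : ℚ), run (A n ε) (orc g) T [] = some z
  · obtain ⟨g, hgA, hgF, hgb, T, z, hrun⟩ := hcase
    obtain ⟨G, hG⟩ := run_local (A n ε) (orc g) T [] z hrun
    set F1 : Finset (Fin d → ℚ) := insert q0 (s.F ∪ G) with hF1
    obtain ⟨h, hhA, hhF, hhI⟩ := hb F1 δ hδ0'
    set η' : ℝ := min (s.η / 4) (c1 / (8 * K)) with hη'
    have hη'0 : 0 < η' := by positivity
    have hη'1 : η' ≤ s.η / 4 := min_le_left _ _
    have hη'K : K * η' ≤ c1 / 8 := by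
      have h1 : η' ≤ c1 / (8 * K) := min_le_right _ _
      calc K * η' ≤ K * (c1 / (8 * K)) := mul_le_mul_of_nonneg_left h1 hK.le
        _ = c1 / 8 := by field_simp
    have hg0 : ∀ x, g x ≤ c - s.η + s.η / 4 := fun x => (hgb x).2.trans (by linarith [hle x])
    have hgAd : Adm (c - s.η + s.η / 4) g :=
      ⟨hgA.cont, hgA.even, hgA.nonneg, hg0, hgA.supp, hgA.rat⟩
    set g2 : E d → ℝ := fun x => g x + h x with hg2
    have hg2A : Adm (c - s.η + s.η / 4 + δ) g2 := hgAd.add hhA
    have hdiff : c1 ≤ Zf g (box d n) lam - Zf g2 (box d n) lam := by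
      have h1 := hLOW d n lam hn hlam.le g g2 (hgAd.mono (by linarith))
        (hg2A.mono (by linarith)) (fun x => by simp only [hg2]; linarith [hhA.nonneg x])
      have h2 : ∫ x, (g2 x - g x) = ∫ x, h x := by
        congr 1; ext x; simp only [hg2]; ring
      rw [h2] at h1
      have h3 : lam ^ 2 / 2 * (c0 * δ) ≤ lam ^ 2 / 2 * ∫ x, h x :=
        mul_le_mul_of_nonneg_left hhI (by positivity)
      exact h3.trans h1
    -- the common part
    have key : ∀ f' : E d → ℝ, Adm (c - η') f' → (∀ q ∈ F1, f' (pt q) = g (pt q)) →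
        (∀ x, g x ≤ f' x ∧ f' x ≤ g x + δ) → c1 / 2 ≤ |(z : ℝ) - Zf f' (box d n) lam| →
        ∃ s' : St d, Ok c s' ∧ Sub s' s ∧ q0 ∈ s'.F ∧ ∀ g ∈ Ext c s', Fails lam g A n := by
      intro f' hf'A hf'F hf'b hz
      refine ⟨⟨f', F1, η'⟩, ⟨hf'A, hη'0⟩, ⟨?_, ?_, ?_, ?_, ?_⟩, Finset.mem_insert_self _ _, ?_⟩
      · intro q hq
        exact Finset.mem_insert_of_mem (Finset.mem_union_left _ hq)
      · intro q hq
        have := hf'F q (Finset.mem_insert_of_mem (Finset.mem_union_left _ hq))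
        simp only
        rw [this, hgF q hq]
      · intro x
        exact (hgb x).1.trans (hf'b x).1
      · intro x
        have h1 := (hf'b x).2
        have h2 := (hgb x).2
        simp only
        linarith
      · simp only
        linarith
      · rintro u ⟨huA, huF, hub⟩
        simp only at huF hub
        refine ⟨ε, hε0', hε1q, fun T' z' hrun' hap => ?_⟩
        have hrunu : run (A n ε) (orc u) T [] = some z := by
          apply hG
          intro q hq m
          have hq1 : q ∈ F1 := Finset.mem_insert_of_mem (Finset.mem_union_right _ hq)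
          exact orc_congr ((huF q hq1).trans (hf'F q hq1)) m
        have hzz : z' = z := run_unique _ _ _ _ _ _ _ hrun' hrunu
        subst hzz
        have hL := hKL u f' (huA.mono hc) (hf'A.mono (by linarith)) η' (fun x => by
          rw [abs_le]; constructor
          · linarith [(hub x).1]
          · linarith [(hub x).2])
        have hB := hKB u (huA.mono hc)
        have h1 : |(z' : ℝ) - Zf u (box d n) lam| ≤ c1 / 8 := by
          have h2 : (ε : ℝ) * Zf u (box d n) lam ≤ c1 / 8 :=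
            (mul_le_mul_of_nonneg_left hB.2 hε0.le).trans hεK
          rw [abs_le]
          constructor
          · nlinarith [hap.1]
          · nlinarith [hap.2]
        have h3 : |(z' : ℝ) - Zf f' (box d n) lam| ≤
            |(z' : ℝ) - Zf u (box d n) lam| + |Zf u (box d n) lam - Zf f' (box d n) lam| :=
          abs_sub_le _ _ _
        linarith
    by_cases hz : c1 / 2 ≤ |(z : ℝ) - Zf g (box d n) lam|
    · exact key g (hgAd.mono (by linarith)) (fun _ _ => rfl)
        (fun x => ⟨le_refl _, by linarith⟩) hz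
    · refine key g2 (hg2A.mono (by linarith)) (fun q hq => ?_) (fun x => ?_) ?_
      · simp only [hg2]; rw [hhF q hq, add_zero]
      · simp only [hg2]
        exact ⟨by linarith [hhA.nonneg x], by linarith [hhA.le x]⟩
      · push Not at hz
        have h1 : |Zf g (box d n) lam - Zf g2 (box d n) lam| ≤
            |Zf g (box d n) lam - (z : ℝ)| + |(z : ℝ) - Zf g2 (box d n) lam| := abs_sub_le _ _ _
        have h2 : c1 ≤ |Zf g (box d n) lam - Zf g2 (box d n) lam| := hdiff.trans (le_abs_self _)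
        rw [abs_sub_comm] at hz
        linarith
  · refine ⟨⟨s.f, insert q0 s.F, s.η / 4⟩, ⟨?_, by simp only; linarith⟩,
      ⟨Finset.subset_insert _ _, fun _ _ => rfl, fun _ => le_refl _, fun x => ?_, ?_⟩,
      Finset.mem_insert_self _ _, ?_⟩
    · exact hsA.mono (by simp only; linarith)
    · simp only; linarith
    · simp only; linarith
    · rintro u ⟨huA, huF, hub⟩
      simp only at huF hub
      refine ⟨ε, hε0', hε1q, fun T z hrun _ => hcase ⟨u, huA, fun q hq => ?_, hub, T, z, hrun⟩⟩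
      exact huF q (Finset.mem_insert_of_mem hq)

/-- the limit -/
theorem lim {c : ℝ} (s : ℕ → St d) (hok : ∀ i, Ok c (s i)) (hsub : ∀ i, Sub (s (i + 1)) (s i))
    (hq : ∀ q : Fin d → ℚ, ∃ i, q ∈ (s i).F) : ∃ g : E d → ℝ, ∀ i, g ∈ Ext c (s i) := by
  have hmono : ∀ x, Monotone fun i => (s i).f x := fun x =>
    monotone_nat_of_le_succ fun i => (hsub i).2.2.1 x
  have hanti : ∀ x, Antitone fun i => (s i).f x + (s i).η := fun x =>
    antitone_nat_of_succ_le fun i => (hsub i).2.2.2.1 x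
  have hup : ∀ x i j, (s j).f x ≤ (s i).f x + (s i).η := by
    intro x i j
    rcases le_total i j with h | h
    · have h1 := hanti x h
      have h2 := (hok j).2
      simp only at h1
      linarith
    · have h1 := hmono x h
      have h2 := (hok i).2
      simp only at h1
      linarith
  have hbdd : ∀ x, BddAbove (Set.range fun i => (s i).f x) := fun x =>
    ⟨(s 0).f x + (s 0).η, by rintro _ ⟨j, rfl⟩; exact hup x 0 j⟩
  set g : E d → ℝ := fun x => ⨆ i, (s i).f x with hg
  have hlow : ∀ x i, (s i).f x ≤ g x := fun x i => le_ciSup (hbdd x) i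
  have hupp : ∀ x i, g x ≤ (s i).f x + (s i).η := fun x i => ciSup_le fun j => hup x i j
  have hFm : ∀ i j, i ≤ j → (s i).F ⊆ (s j).F := by
    intro i j hij
    induction hij with
    | refl => exact Finset.Subset.refl _
    | step _ ih => exact ih.trans (hsub _).1
  have hfix : ∀ q i, q ∈ (s i).F → ∀ j, i ≤ j → (s j).f (pt q) = (s i).f (pt q) := by
    intro q i hqi j hij
    induction hij with
    | refl => rfl
    | @step k hk ih =>
      rw [(hsub k).2.1 q (hFm i k hk hqi), ih]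
  have hval : ∀ q i, q ∈ (s i).F → g (pt q) = (s i).f (pt q) := by
    intro q i hqi
    apply le_antisymm
    · apply ciSup_le
      intro j
      rcases le_total i j with h | h
      · exact (hfix q i hqi j h).le
      · exact hmono _ h
    · exact hlow _ _
  have hη : ∀ i, (s i).η ≤ (s 0).η * (1 / 2) ^ i := by
    intro i
    induction i with
    | zero => simp
    | succ i ih =>
      have h1 := (hsub i).2.2.2.2
      rw [pow_succ]
      linarith
  have hcont : Continuous g := by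
    have hunif : TendstoUniformly (fun i => (s i).f) g Filter.atTop := by
      rw [Metric.tendstoUniformly_iff]
      intro e he
      have ht : Filter.Tendsto (fun i : ℕ => (s 0).η * (1 / 2 : ℝ) ^ i) Filter.atTop (nhds 0) := by
        have := (tendsto_pow_atTop_nhds_zero_of_lt_one (r := (1 / 2 : ℝ)) (by norm_num)
          (by norm_num)).const_mul (s 0).η
        simpa using this
      filter_upwards [(tendsto_order.1 ht).2 e he] with i hi x
      rw [Real.dist_eq, abs_lt]
      have h1 := hlow x i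
      have h2 := hupp x i
      have h3 := hη i
      constructor <;> linarith
    exact hunif.continuous (Filter.Frequently.of_forall fun i => (hok i).1.cont)
  have hA : Adm c g := by
    refine ⟨hcont, fun x => ?_, fun x => ?_, fun x => ?_, fun x hx => ?_, fun q => ?_⟩
    · simp only [hg]
      congr 1; ext i
      exact (hok i).1.even x
    · exact ((hok 0).1.nonneg x).trans (hlow x 0)
    · have h1 := hupp x 0
      have h2 := (hok 0).1.le x
      linarith
    · simp only [hg]
      have : (fun i => (s i).f x) = fun _ => (0 : ℝ) := by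
        ext i; exact (hok i).1.supp x hx
      rw [this]; exact ciSup_const
    · obtain ⟨i, hi⟩ := hq q
      obtain ⟨r, hr⟩ := (hok i).1.rat q
      exact ⟨r, by rw [hval q i hi, hr]⟩
  exact ⟨g, fun i => ⟨hA, fun q hq => hval q i hq, fun x => ⟨hlow x i, hupp x i⟩⟩⟩

/-- the forcing theorem -/
theorem force (hLIP : S_LIP) (hLOW : S_LOW) (hBUMP : S_BUMP) (hd : 1 ≤ d) {c : ℝ}
    (hc0 : 0 < c) (hc : c ≤ 1 / 2) (A : ℕ → Alg d) (n : ℕ → ℕ) (hn : ∀ i, 1 ≤ n i)
    (lam : ℕ → ℝ) (hlam : ∀ i, 0 < lam i) :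
    ∃ g : E d → ℝ, Adm c g ∧ ∀ i, Fails (lam i) g (A i) (n i) := by
  obtain ⟨e, he⟩ := exists_surjective_nat (Fin d → ℚ)
  have hstep : ∀ (i : ℕ) (s : {s : St d // Ok c s}), ∃ s' : {s : St d // Ok c s},
      Sub s'.1 s.1 ∧ e i ∈ s'.1.F ∧ ∀ g ∈ Ext c s'.1, Fails (lam i) g (A i) (n i) := by
    intro i s
    obtain ⟨s', h1, h2, h3, h4⟩ := step hLIP hLOW hBUMP hd hc s.1 s.2 (A i) (n i) (hn i) (lam i)
      (hlam i) (e i)
    exact ⟨⟨s', h1⟩, h2, h3, h4⟩
  choose nx hnx using hstep
  have h0 : Ok c (⟨fun _ => 0, ∅, c⟩ : St d) := by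
    refine ⟨⟨continuous_const, fun _ => rfl, fun _ => le_refl _, fun _ => by simp,
      fun _ _ => rfl, fun _ => ⟨0, by simp⟩⟩, hc0⟩
  let S : ℕ → {s : St d // Ok c s} := fun i => Nat.rec ⟨_, h0⟩ (fun i s => nx i s) i
  have hS : ∀ i, S (i + 1) = nx i (S i) := fun i => rfl
  obtain ⟨g, hg⟩ := lim (c := c) (fun i => (S i).1) (fun i => (S i).2)
    (fun i => by rw [hS]; exact (hnx i (S i)).1) (fun q => by
      obtain ⟨i, rfl⟩ := he q
      exact ⟨i + 1, by rw [hS]; exact (hnx i (S i)).2.1⟩)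
  refine ⟨g, (hg 0).1, fun i => ?_⟩
  have h1 := hg (i + 1)
  rw [hS] at h1
  exact (hnx i (S i)).2.2 g h1

end Pool.Agent.Y572.GP
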