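import Pool.Agent.Y572.GP.Defs

/-!
# The partition function is Lipschitz and bounded (helper168)
-/

set_option autoImplicit false

namespace Pool.Agent.Y572.GP

open MeasureTheory

namespace LIP

theorem prod_diff {ι : Type} (s : Finset ι) (a b : ι → ℝ) (ha : ∀ i, 0 ≤ a i ∧ a i ≤ 1)
    (hb : ∀ i, 0 ≤ b i ∧ b i ≤ 1) :
    |∏ i ∈ s, a i - ∏ i ∈ s, b i| ≤ ∑ i ∈ s, |a i - b i| := by
  classical
  induction s using Finset.induction_on with
  | empty => simp
  | insert i s hi ih =>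
    rw [Finset.prod_insert hi, Finset.prod_insert hi, Finset.sum_insert hi]
    have h1 : a i * ∏ j ∈ s, a j - b i * ∏ j ∈ s, b j =
        (a i - b i) * ∏ j ∈ s, a j + b i * (∏ j ∈ s, a j - ∏ j ∈ s, b j) := by ring
    have h2 : 0 ≤ ∏ j ∈ s, a j := Finset.prod_nonneg fun j _ => (ha j).1
    have h3 : ∏ j ∈ s, a j ≤ 1 := Finset.prod_le_one (fun j _ => (ha j).1) fun j _ => (ha j).2
    rw [h1]
    refine (abs_add_le _ _).trans (add_le_add ?_ ?_)
    · rw [abs_mul, abs_of_nonneg h2]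
      exact mul_le_of_le_one_right (abs_nonneg _) h3
    · rw [abs_mul, abs_of_nonneg (hb i).1]
      exact (mul_le_of_le_one_left (abs_nonneg _) (hb i).2).trans ih

theorem fac {d : ℕ} {f : E d → ℝ} (hf : Adm (1 / 2) f) {k : ℕ} (x : Fin k → E d)
    (p : Fin k × Fin k) :
    0 ≤ (if p.1 < p.2 then 1 - f (x p.1 - x p.2) else 1) ∧
      (if p.1 < p.2 then 1 - f (x p.1 - x p.2) else 1) ≤ 1 := by
  have h1 := hf.nonneg (x p.1 - x p.2)
  have h2 := hf.le (x p.1 - x p.2)
  split_ifs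
  · constructor <;> linarith
  · constructor <;> linarith

theorem W_eq {d : ℕ} (f : E d → ℝ) {k : ℕ} (x : Fin k → E d) :
    W f x = ∏ p : Fin k × Fin k, if p.1 < p.2 then 1 - f (x p.1 - x p.2) else 1 := by
  rw [W, Fintype.prod_prod_type]

theorem W_nonneg {d : ℕ} {f : E d → ℝ} (hf : Adm (1 / 2) f) {k : ℕ} (x : Fin k → E d) :
    0 ≤ W f x := by
  rw [W_eq]
  exact Finset.prod_nonneg fun p _ => (fac hf x p).1

theorem W_le {d : ℕ} {f : E d → ℝ} (hf : Adm (1 / 2) f) {k : ℕ} (x : Fin k → E d) :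
    W f x ≤ 1 := by
  rw [W_eq]
  exact Finset.prod_le_one (fun p _ => (fac hf x p).1) fun p _ => (fac hf x p).2

theorem W_cont {d : ℕ} {f : E d → ℝ} (hf : Continuous f) {k : ℕ} :
    Continuous (fun x : Fin k → E d => W f x) := by
  unfold W
  refine continuous_finsetProd _ fun i _ => continuous_finsetProd _ fun j _ => ?_
  by_cases h : i < j
  · simp only [h, if_true]
    exact continuous_const.sub (hf.comp ((continuous_apply i).sub (continuous_apply j)))
  · simp only [h, if_false]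
    exact continuous_const

theorem W_diff {d : ℕ} {f g : E d → ℝ} (hf : Adm (1 / 2) f) (hg : Adm (1 / 2) g) {δ : ℝ}
    (h : ∀ x, |f x - g x| ≤ δ) {k : ℕ} (x : Fin k → E d) :
    |W f x - W g x| ≤ (k : ℝ) ^ 2 * δ := by
  have h0 : 0 ≤ δ := (abs_nonneg _).trans (h 0)
  rw [W_eq, W_eq]
  refine (prod_diff _ _ _ (fac hf x) (fac hg x)).trans ?_
  have h1 : ∀ p ∈ (Finset.univ : Finset (Fin k × Fin k)),
      |(if p.1 < p.2 then 1 - f (x p.1 - x p.2) else 1) -
        (if p.1 < p.2 then 1 - g (x p.1 - x p.2) else 1)| ≤ δ := by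
    intro p _
    split_ifs
    · rw [show 1 - f (x p.1 - x p.2) - (1 - g (x p.1 - x p.2)) =
        -(f (x p.1 - x p.2) - g (x p.1 - x p.2)) by ring, abs_neg]
      exact h _
    · rw [sub_self, abs_zero]
      exact h0
  refine (Finset.sum_le_card_nsmul _ _ _ h1).trans (le_of_eq ?_)
  rw [Finset.card_univ, Fintype.card_prod, Fintype.card_fin, nsmul_eq_mul]
  push_cast
  ring

theorem box_compact (d n : ℕ) : IsCompact (box d n) := by
  have h1 : box d n = (EuclideanSpace.equiv (Fin d) ℝ).toHomeomorph ⁻¹'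
      (Set.Icc (fun _ => -(n : ℝ)) (fun _ => (n : ℝ))) := by
    ext x
    constructor
    · intro h
      exact ⟨fun i => (abs_le.1 (h i)).1, fun i => (abs_le.1 (h i)).2⟩
    · rintro ⟨h2, h3⟩ i
      exact abs_le.2 ⟨h2 i, h3 i⟩
  rw [h1]
  exact (EuclideanSpace.equiv (Fin d) ℝ).toHomeomorph.isCompact_preimage.2 isCompact_Icc

theorem vol_lt (d n k : ℕ) :
    (volume : Measure (Fin k → E d)) (Set.univ.pi (fun _ : Fin k => box d n)) < ⊤ :=
  (isCompact_univ_pi fun _ => box_compact d n).measure_lt_top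

theorem vol_real (d n k : ℕ) :
    (volume : Measure (Fin k → E d)).real (Set.univ.pi (fun _ : Fin k => box d n)) =
      ((volume : Measure (E d)).real (box d n)) ^ k := by
  rw [measureReal_def, volume_pi_pi, Finset.prod_const, Finset.card_univ, Fintype.card_fin,
    ENNReal.toReal_pow, measureReal_def]

theorem int_W {d : ℕ} {f : E d → ℝ} (hf : Adm (1 / 2) f) (n k : ℕ) :
    IntegrableOn (fun x : Fin k → E d => W f x) (Set.univ.pi (fun _ : Fin k => box d n)) :=
  (W_cont hf.cont).continuousOn.integrableOn_compact (isCompact_univ_pi fun _ => box_compact d n)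

theorem bd_W {d : ℕ} {f : E d → ℝ} (hf : Adm (1 / 2) f) (n k : ℕ) :
    0 ≤ ∫ x in Set.univ.pi (fun _ : Fin k => box d n), W f x ∧
    ∫ x in Set.univ.pi (fun _ : Fin k => box d n), W f x ≤
      ((volume : Measure (E d)).real (box d n)) ^ k := by
  have h1 : 0 ≤ ∫ x in Set.univ.pi (fun _ : Fin k => box d n), W f x :=
    integral_nonneg fun x => W_nonneg hf x
  refine ⟨h1, ?_⟩
  have h2 := norm_setIntegral_le_of_norm_le_const (vol_lt d n k) (C := 1)
    (f := fun x : Fin k → E d => W f x) (fun x _ => by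
      rw [Real.norm_eq_abs, abs_of_nonneg (W_nonneg hf x)]
      exact W_le hf x)
  rw [Real.norm_eq_abs, abs_of_nonneg h1, one_mul, vol_real] at h2
  exact h2

theorem bd_diff {d : ℕ} {f g : E d → ℝ} (hf : Adm (1 / 2) f) (hg : Adm (1 / 2) g) {δ : ℝ}
    (h : ∀ x, |f x - g x| ≤ δ) (n k : ℕ) :
    |(∫ x in Set.univ.pi (fun _ : Fin k => box d n), W f x) -
      ∫ x in Set.univ.pi (fun _ : Fin k => box d n), W g x| ≤
      (k : ℝ) ^ 2 * δ * ((volume : Measure (E d)).real (box d n)) ^ k := by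
  rw [← integral_sub (int_W hf n k) (int_W hg n k), ← Real.norm_eq_abs, ← vol_real]
  exact norm_setIntegral_le_of_norm_le_const (vol_lt d n k) fun x _ => by
    rw [Real.norm_eq_abs]
    exact W_diff hf hg h x

theorem sq_le (k : ℕ) : (k : ℝ) ^ 2 ≤ 4 ^ k := by
  have h1 : k ≤ 2 ^ k := Nat.lt_two_pow_self.le
  have h2 : (k : ℝ) ≤ 2 ^ k := by exact_mod_cast h1
  calc (k : ℝ) ^ 2 ≤ (2 ^ k) ^ 2 := by gcongr
    _ = 4 ^ k := by rw [← pow_mul, mul_comm, pow_mul]; norm_num

end LIP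

open LIP in
theorem t_LIP : S_LIP := by
  intro d n lam hlam
  obtain ⟨v, hv⟩ : ∃ v : ℝ, v = (volume : Measure (E d)).real (box d n) := ⟨_, rfl⟩
  have hv0 : 0 ≤ v := by rw [hv]; exact measureReal_nonneg
  have hsum : ∀ c : ℝ, Summable fun k : ℕ => c ^ (k + 1) / ((k + 1).factorial : ℝ) := fun c =>
    (summable_nat_add_iff 1).2 (Real.summable_pow_div_factorial c)
  obtain ⟨S, hS⟩ : ∃ S : ℝ → ℝ, ∀ c, S c = ∑' k : ℕ, c ^ (k + 1) / ((k + 1).factorial : ℝ) :=
    ⟨_, fun _ => rfl⟩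
  have hS0 : ∀ c, 0 ≤ c → 0 ≤ S c := by
    intro c hc
    rw [hS]
    exact tsum_nonneg fun k => by positivity
  have hterm : ∀ f : E d → ℝ, Adm (1 / 2) f → ∀ k : ℕ,
      0 ≤ lam ^ (k + 1) / ((k + 1).factorial : ℝ) *
        ∫ x in Set.univ.pi (fun _ : Fin (k + 1) => box d n), W f x ∧
      lam ^ (k + 1) / ((k + 1).factorial : ℝ) *
        ∫ x in Set.univ.pi (fun _ : Fin (k + 1) => box d n), W f x ≤
        (lam * v) ^ (k + 1) / ((k + 1).factorial : ℝ) := by
    intro f hf k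
    obtain ⟨h1, h2⟩ := bd_W hf n (k + 1)
    rw [← hv] at h2
    have h3 : 0 ≤ lam ^ (k + 1) / ((k + 1).factorial : ℝ) := by positivity
    refine ⟨mul_nonneg h3 h1, (mul_le_mul_of_nonneg_left h2 h3).trans (le_of_eq ?_)⟩
    rw [mul_pow]
    ring
  have hsm : ∀ f : E d → ℝ, Adm (1 / 2) f → Summable fun k : ℕ =>
      lam ^ (k + 1) / ((k + 1).factorial : ℝ) *
        ∫ x in Set.univ.pi (fun _ : Fin (k + 1) => box d n), W f x := fun f hf =>
    Summable.of_nonneg_of_le (fun k => (hterm f hf k).1) (fun k => (hterm f hf k).2)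
      (hsum (lam * v))
  have h4 : 0 ≤ S (4 * (lam * v)) := hS0 _ (by positivity)
  have h5 : 0 ≤ S (lam * v) := hS0 _ (by positivity)
  refine ⟨S (4 * (lam * v)) + S (lam * v) + 1, by linarith, ?_, ?_⟩
  · intro f g hf hg δ h
    have h0 : 0 ≤ δ := (abs_nonneg _).trans (h 0)
    rw [Zf, Zf, add_sub_add_left_eq_sub, ← (hsm f hf).tsum_sub (hsm g hg)]
    have h6 : ∀ k : ℕ, ‖lam ^ (k + 1) / ((k + 1).factorial : ℝ) *
        (∫ x in Set.univ.pi (fun _ : Fin (k + 1) => box d n), W f x) -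
        lam ^ (k + 1) / ((k + 1).factorial : ℝ) *
        (∫ x in Set.univ.pi (fun _ : Fin (k + 1) => box d n), W g x)‖ ≤
        (4 * (lam * v)) ^ (k + 1) / ((k + 1).factorial : ℝ) * δ := by
      intro k
      have h3 : 0 ≤ lam ^ (k + 1) / ((k + 1).factorial : ℝ) := by positivity
      rw [← mul_sub, Real.norm_eq_abs, abs_mul, abs_of_nonneg h3]
      refine (mul_le_mul_of_nonneg_left (bd_diff hf hg h n (k + 1)) h3).trans ?_
      rw [← hv]
      have h7 := sq_le (k + 1)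
      have h8 : ((k + 1 : ℕ) : ℝ) ^ 2 * (δ * v ^ (k + 1)) ≤ 4 ^ (k + 1) * (δ * v ^ (k + 1)) :=
        mul_le_mul_of_nonneg_right h7 (by positivity)
      calc lam ^ (k + 1) / ((k + 1).factorial : ℝ) * (((k + 1 : ℕ) : ℝ) ^ 2 * δ * v ^ (k + 1)) =
          lam ^ (k + 1) / ((k + 1).factorial : ℝ) * (((k + 1 : ℕ) : ℝ) ^ 2 * (δ * v ^ (k + 1))) := by
            ring
        _ ≤ lam ^ (k + 1) / ((k + 1).factorial : ℝ) * (4 ^ (k + 1) * (δ * v ^ (k + 1))) :=
            mul_le_mul_of_nonneg_left h8 h3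
        _ = _ := by
            rw [mul_pow, mul_pow]
            ring
    have h7 := tsum_of_norm_bounded ((hsum (4 * (lam * v))).mul_right δ).hasSum h6
    rw [tsum_mul_right, ← hS, Real.norm_eq_abs] at h7
    refine h7.trans ?_
    exact mul_le_mul_of_nonneg_right (by linarith) h0
  · intro f hf
    rw [Zf]
    have h6 : 0 ≤ ∑' k : ℕ, lam ^ (k + 1) / ((k + 1).factorial : ℝ) *
        ∫ x in Set.univ.pi (fun _ : Fin (k + 1) => box d n), W f x :=
      tsum_nonneg fun k => (hterm f hf k).1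
    have h7 : ∑' k : ℕ, lam ^ (k + 1) / ((k + 1).factorial : ℝ) *
        ∫ x in Set.univ.pi (fun _ : Fin (k + 1) => box d n), W f x ≤ S (lam * v) := by
      rw [hS]
      exact (hsm f hf).tsum_le_tsum (fun k => (hterm f hf k).2) (hsum (lam * v))
    constructor <;> linarith

end Pool.Agent.Y572.GP
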